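import Pool.Agent.L5helper88.CP.Blocks
import Pool.Agent.L5helper61.DC.Block
import Pool.Agent.L5helper20.DG.Gadget
import Pool.Agent.L5helper67.DC.PermCorner

/-!
# Programs for the permanent
-/

set_option autoImplicit false

open Finset MvPolynomial

namespace Pool.Agent.L5helper88.CP

open Pool.Agent.L5helper60.LA L5helper59.DC

section entries

variable {σ : Type} [Fintype σ] [DecidableEq σ]

theorem aff_zero (z : ℂ) : aff z (0 : σ → ℂ) = C z := by
  simp [aff]

theorem aff_single (w : σ) : aff 0 (fun i => if i = w then 1 else 0) = (X w : MvPolynomial σ ℂ) := by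
  unfold aff
  rw [C_0, zero_add, sum_eq_single w]
  · simp
  · intro b _ hb
    simp only [if_neg hb, C_0, zero_mul]
  · intro h
    exact absurd (mem_univ w) h

/-- the substitution which turns the permanent of size `m` into the permanent of `M` -/
theorem exists_subst {m m'' : ℕ} (h : m'' ≤ m) (M : Matrix (Fin m'') (Fin m'') (MvPolynomial σ ℂ))
    (hM : ∀ a b, (∃ v, M a b = X v) ∨ (∃ c, M a b = C c)) :
    ∃ (a : Fin m × Fin m → ℂ) (b : Fin m × Fin m → σ → ℂ),
      aeval (fun j => aff (a j) (b j)) (permPoly m) = M.permanent := by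
  have h1 : ∀ v : Fin m × Fin m, ∃ (a : ℂ) (b : σ → ℂ), aff a b =
      aeval (fun w : Fin m'' × Fin m'' => M w.1 w.2)
        (if hh : (v.1 : ℕ) < m'' ∧ (v.2 : ℕ) < m'' then
        (MvPolynomial.X (⟨v.1, hh.1⟩, ⟨v.2, hh.2⟩) : MvPolynomial (Fin m'' × Fin m'') ℂ)
      else if v.1 = v.2 then 1 else 0) := by
    intro v
    by_cases hh : (v.1 : ℕ) < m'' ∧ (v.2 : ℕ) < m''
    · rw [dif_pos hh, aeval_X]
      rcases hM ⟨v.1, hh.1⟩ ⟨v.2, hh.2⟩ with ⟨w, hw⟩ | ⟨c, hc⟩
      · exact ⟨_, _, (aff_single w).trans hw.symm⟩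
      · exact ⟨_, _, (aff_zero c).trans hc.symm⟩
    · rw [dif_neg hh]
      by_cases he : v.1 = v.2
      · rw [if_pos he, map_one]
        exact ⟨1, 0, by rw [aff_zero, C_1]⟩
      · rw [if_neg he, map_zero]
        exact ⟨0, 0, by rw [aff_zero, C_0]⟩
  choose a b hab using h1
  refine ⟨a, b, ?_⟩
  have h2 : (fun j => aff (a j) (b j)) = fun v : Fin m × Fin m =>
      aeval (fun w : Fin m'' × Fin m'' => M w.1 w.2)
        (if hh : (v.1 : ℕ) < m'' ∧ (v.2 : ℕ) < m'' then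
        (MvPolynomial.X (⟨v.1, hh.1⟩, ⟨v.2, hh.2⟩) : MvPolynomial (Fin m'' × Fin m'') ℂ)
      else if v.1 = v.2 then 1 else 0) := funext hab
  have h3 := congrArg (aeval (fun w : Fin m'' × Fin m'' => M w.1 w.2))
    (L5helper67.DC.permPoly_corner m m'' h)
  rw [h2]
  have h4 : ∀ (φ : Fin m × Fin m → MvPolynomial (Fin m'' × Fin m'') ℂ)
      (P : MvPolynomial (Fin m × Fin m) ℂ),
      aeval (fun w : Fin m'' × Fin m'' => M w.1 w.2) (aeval φ P) =
        aeval (fun v => aeval (fun w : Fin m'' × Fin m'' => M w.1 w.2) (φ v)) P := by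
    intro φ P
    rw [← AlgHom.comp_apply, comp_aeval]
  rw [h4] at h3
  rw [h3]
  unfold permPoly Matrix.permanent
  rw [map_sum]
  refine sum_congr rfl fun s _ => ?_
  rw [map_prod]
  refine prod_congr rfl fun i _ => ?_
  simp

end entries

set_option synthInstance.maxSize 1000 in
/-- **The bound for programs which approximate the permanent.** -/
theorem program_bound (q : ℕ) [NeZero q] (hq : 2 ≤ q) :
    ∃ B : Finset ℕ, B.card ≤ (q.factorial) ^ 2 * (2 * q) ∧ ∀ n : ℕ, 2 ≤ n → n ∉ B →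
      ∀ κ : ℕ, 1 ≤ κ → ∀ m : ℕ, n * (q.factorial) ^ 2 + κ * (2 * q) ≤ m + (q + 1) →
      ∀ (Pk : ℕ → MvPolynomial (Fin m × Fin m) ℂ) (D : ℕ), (∀ k, (Pk k).totalDegree ≤ D) →
      CT Pk (permPoly m) → ∀ L : ℕ, (∀ k, ∃ l : List (RF ℂ (Fin m × Fin m)), Prog (xv ℂ) l ∧
        l.length ≤ L ∧ algebraMap (MvPolynomial (Fin m × Fin m) ℂ) (RF ℂ (Fin m × Fin m)) (Pk k) ∈
          Av (xv ℂ) {b | b ∈ l}) →
      (((q.factorial) ^ 2).factorial) ^ (n * κ) ≤
        2 ^ (n * (q.factorial) ^ 2 * (κ * (2 * q)) + 2 * L) := by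
  classical
  obtain ⟨B, hB, H⟩ := L5helper61.DC.block_points q hq
  refine ⟨B, hB, fun n hn hnB κ hκ m hm Pk D hdeg hlim L hL => ?_⟩
  obtain ⟨c, S, hS0, hS1, hS2⟩ := H n hn hnB
  have hcρ : Fintype.card (Fin n × Typ q) = n * (q.factorial) ^ 2 := by
    rw [Fintype.card_prod, Fintype.card_fin, Fintype.card_fun, Fintype.card_perm, ZMod.card,
      Fintype.card_fin]
  have hcγ : Fintype.card (Fin 2 × ZMod q) = 2 * q := by
    rw [Fintype.card_prod, Fintype.card_fin, ZMod.card]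
  have hfq : q ≤ q.factorial := Nat.self_le_factorial q
  have hr1 : q + 1 ≤ Fintype.card (Fin n × Typ q) := by
    rw [hcρ]
    nlinarith
  have hr2 : q + 1 ≤ Fintype.card (Fin 2 × ZMod q) := by
    rw [hcγ]
    omega
  obtain ⟨m'', M, lam, hm'', hlam, hent, hperm⟩ := Pool.Agent.L5helper20.DG.gadget κ (q + 1) hκ
    (by omega) (Fin n × Typ q) (Fin 2 × ZMod q) hr1 hr2
  rw [hcρ, hcγ] at hm''
  obtain ⟨a, b, hab⟩ := exists_subst (m := m) (by omega) M hent
  have hf : aeval (fun j => aff (a j) (b j)) (permPoly m) =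
      bsum (sig (q + 1) (gen (Fin n × Typ q) (Fin 2 × ZMod q))) lam := by
    rw [hab, hperm]
    unfold bsum
    refine sum_congr rfl fun l _ => ?_
    congr 1
    have h3 := L5helper67.DC.map_sig (rename (R := ℂ)
      (bi (ρ := Fin n × Typ q) (γ := Fin 2 × ZMod q) l)).toRingHom (q + 1)
      (gen (Fin n × Typ q) (Fin 2 × ZMod q))
    simp only [AlgHom.toRingHom_eq_coe, RingHom.coe_coe, gen, rename_X] at h3
    exact h3.symm
  obtain ⟨c', S', hS'1, hS'2⟩ := crit_bsum (sig (q + 1) (gen (Fin n × Typ q) (Fin 2 × ZMod q)))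
    lam hlam c S ⟨hS1, hS2⟩
  rw [← hf] at hS'2
  have key := size_bound (permPoly m) Pk D hdeg hlim L hL a b c' S' hS'2
  have hcard : Fintype.card ((Fin n × Typ q) × Fin κ × (Fin 2 × ZMod q)) =
      n * (q.factorial) ^ 2 * (κ * (2 * q)) := by
    rw [Fintype.card_prod (Fin n × Typ q) (Fin κ × (Fin 2 × ZMod q)), hcρ,
      Fintype.card_prod (Fin κ) (Fin 2 × ZMod q), hcγ, Fintype.card_fin]
  rw [hS'1, hS0, ← pow_mul, hcard] at key
  exact key

end Pool.Agent.L5helper88.CP
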