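import Pool.Agent.L5helper88.CP.Model
import Pool.Agent.L5helper88.CP.Asm
import Pool.Agent.N111.QC.Emb

/-!
# Circuits give computations, and the field of coefficients can be changed
-/

set_option autoImplicit false

open Finset MvPolynomial

namespace Pool.Agent.L5helper88.Model

section basic

variable {K : Type} [Field K] {σ : Type}

theorem Lin_mono {l l' : List (RatFun K σ)} (h : ∀ a ∈ l, a ∈ l') : Lin l ≤ Lin l' :=
  Submodule.span_mono (Set.union_subset_union_left _ h)

theorem mem_Lin {l : List (RatFun K σ)} {a : RatFun K σ} (h : a ∈ l) : a ∈ Lin l :=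
  Submodule.subset_span (Or.inl h)

theorem var_mem_Lin (l : List (RatFun K σ)) (i : σ) : toRat (X i) ∈ Lin l :=
  Submodule.subset_span (Or.inr (Or.inl ⟨i, rfl⟩))

theorem one_mem_Lin (l : List (RatFun K σ)) : 1 ∈ Lin l :=
  Submodule.subset_span (Or.inr (Or.inr rfl))

theorem const_mem_Lin (l : List (RatFun K σ)) (c : K) : toRat (C c) ∈ Lin l := by
  have h1 : toRat (C c : MvPolynomial σ K) = c • (1 : RatFun K σ) := by
    rw [← Algebra.algebraMap_eq_smul_one]
    rfl
  rw [h1]
  exact (Lin l).smul_mem c (one_mem_Lin l)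

theorem toRat_injective : Function.Injective (toRat : MvPolynomial σ K → RatFun K σ) :=
  IsFractionRing.injective (MvPolynomial σ K) (RatFun K σ)

theorem Circuit.computation {l : List (RatFun K σ)} {s : ℕ} (h : Circuit l s) :
    ∃ l' : List (RatFun K σ), Computation l' ∧ l'.length = s ∧ ∀ u, Operand l u → u ∈ Lin l' := by
  have hin : ∀ (l' : List (RatFun K σ)) (u : RatFun K σ),
      ((∃ i, u = toRat (X i)) ∨ ∃ c : K, u = toRat (C c)) → u ∈ Lin l' := by
    rintro l' u (⟨i, rfl⟩ | ⟨c, rfl⟩)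
    · exact var_mem_Lin l' i
    · exact const_mem_Lin l' c
  induction h with
  | nil =>
    refine ⟨[], Computation.nil, rfl, ?_⟩
    rintro u (h | h)
    · exact absurd h (by simp)
    · exact hin _ _ h
  | add l s u v _ hu hv ih =>
    obtain ⟨l', h1, h2, h3⟩ := ih
    refine ⟨l', h1, h2, ?_⟩
    rintro w (h | h)
    · rcases List.mem_cons.1 h with rfl | h
      · exact (Lin l').add_mem (h3 u hu) (h3 v hv)
      · exact h3 w (Or.inl h)
    · exact hin _ _ h
  | mul l s u v _ hu hv ih =>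
    obtain ⟨l', h1, h2, h3⟩ := ih
    refine ⟨(u * v) :: l', Computation.mul l' u v h1 (h3 u hu) (h3 v hv), by simp [h2], ?_⟩
    rintro w (h | h)
    · rcases List.mem_cons.1 h with rfl | h
      · exact mem_Lin List.mem_cons_self
      · exact Lin_mono (fun a ha => List.mem_cons_of_mem _ ha) (h3 w (Or.inl h))
    · exact hin _ _ h
  | div l s u v _ hu hv hv0 ih =>
    obtain ⟨l', h1, h2, h3⟩ := ih
    refine ⟨(u / v) :: l', Computation.div l' u v h1 (h3 u hu) (h3 v hv) hv0, by simp [h2], ?_⟩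
    rintro w (h | h)
    · rcases List.mem_cons.1 h with rfl | h
      · exact mem_Lin List.mem_cons_self
      · exact Lin_mono (fun a ha => List.mem_cons_of_mem _ ha) (h3 w (Or.inl h))
    · exact hin _ _ h

end basic

section fields

variable {K K' : Type} [Field K] [Field K'] {σ : Type} (ι : K →+* K')

/-- the map of rational functions given by a homomorphism of the coefficients -/
noncomputable def mapRat : RatFun K σ →+* RatFun K' σ :=
  IsFractionRing.map (A := MvPolynomial σ K) (B := MvPolynomial σ K') (j := map ι)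
    (map_injective ι ι.injective)

theorem mapRat_toRat (f : MvPolynomial σ K) : mapRat ι (toRat f) = toRat (map ι f) := by
  unfold mapRat toRat IsFractionRing.map
  exact IsLocalization.map_eq (T := nonZeroDivisors (MvPolynomial σ K')) _ f

theorem mapRat_smul (c : K) (a : RatFun K σ) : mapRat ι (c • a) = ι c • mapRat ι a := by
  rw [Algebra.smul_def, Algebra.smul_def, map_mul]
  congr 1
  have h1 : algebraMap K (RatFun K σ) c = toRat (C c) := rfl
  have h2 : algebraMap K' (RatFun K' σ) (ι c) = toRat (C (ι c)) := rfl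
  rw [h1, h2, mapRat_toRat, map_C]

theorem mapRat_Lin {l : List (RatFun K σ)} {u : RatFun K σ} (hu : u ∈ Lin l) :
    mapRat ι u ∈ Lin (l.map (mapRat ι)) := by
  unfold Lin at hu
  induction hu using Submodule.span_induction with
  | mem u hu =>
    rcases hu with hu | ⟨i, rfl⟩ | hu
    · exact mem_Lin (List.mem_map.2 ⟨u, hu, rfl⟩)
    · simp only [mapRat_toRat, map_X]
      exact var_mem_Lin _ i
    · rw [Set.mem_singleton_iff.1 hu, map_one]
      exact one_mem_Lin _
  | zero => rw [map_zero]; exact Submodule.zero_mem _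
  | add u v _ _ hu hv => rw [map_add]; exact Submodule.add_mem _ hu hv
  | smul c u _ hu => rw [mapRat_smul]; exact Submodule.smul_mem _ _ hu

theorem Computation.map {l : List (RatFun K σ)} (h : Computation l) :
    Computation (l.map (mapRat ι)) := by
  induction h with
  | nil => exact Computation.nil
  | mul l u v _ hu hv ih =>
    rw [List.map_cons, map_mul]
    exact Computation.mul _ _ _ ih (mapRat_Lin ι hu) (mapRat_Lin ι hv)
  | div l u v _ hu hv hv0 ih =>
    rw [List.map_cons, map_div₀]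
    exact Computation.div _ _ _ ih (mapRat_Lin ι hu) (mapRat_Lin ι hv)
      ((map_ne_zero (mapRat ι)).2 hv0)

theorem Computed.map {f : MvPolynomial σ K} {L : ℕ} (h : Computed f L) :
    Computed (MvPolynomial.map ι f) L := by
  obtain ⟨l, h1, h2, h3⟩ := h
  refine ⟨l.map (mapRat ι), h1.map ι, by simpa using h2, ?_⟩
  rw [← mapRat_toRat]
  exact mapRat_Lin ι h3

/-- a linear combination has coefficients in a finitely generated field -/
theorem exists_lin (l : List (RatFun K σ)) (u : RatFun K σ) (hu : u ∈ Lin l) :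
    ∃ A : Finset K, ∀ K₀ : Subfield K, (∀ a ∈ A, a ∈ K₀) → ∀ l₀ : List (RatFun K₀ σ),
      l₀.map (mapRat K₀.subtype) = l → ∃ u₀ ∈ Lin l₀, mapRat K₀.subtype u₀ = u := by
  classical
  unfold Lin at hu
  induction hu using Submodule.span_induction with
  | mem u hu =>
    refine ⟨∅, fun K₀ _ l₀ hl₀ => ?_⟩
    rcases hu with hu | ⟨i, rfl⟩ | hu
    · have hu' : u ∈ l := hu
      rw [← hl₀] at hu'
      obtain ⟨u₀, h1, h2⟩ := List.mem_map.1 hu'
      exact ⟨u₀, mem_Lin h1, h2⟩
    · exact ⟨toRat (X i), var_mem_Lin _ i, by rw [mapRat_toRat, map_X]⟩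
    · exact ⟨1, one_mem_Lin _, by rw [map_one, Set.mem_singleton_iff.1 hu]⟩
  | zero => exact ⟨∅, fun K₀ _ l₀ _ => ⟨0, Submodule.zero_mem _, map_zero _⟩⟩
  | add u v _ _ hu hv =>
    obtain ⟨A, hA⟩ := hu
    obtain ⟨B, hB⟩ := hv
    refine ⟨A ∪ B, fun K₀ h l₀ hl₀ => ?_⟩
    obtain ⟨u₀, h1, h2⟩ := hA K₀ (fun a ha => h a (mem_union_left _ ha)) l₀ hl₀
    obtain ⟨v₀, h3, h4⟩ := hB K₀ (fun a ha => h a (mem_union_right _ ha)) l₀ hl₀
    exact ⟨u₀ + v₀, Submodule.add_mem _ h1 h3, by rw [map_add, h2, h4]⟩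
  | smul c u _ hu =>
    obtain ⟨A, hA⟩ := hu
    refine ⟨insert c A, fun K₀ h l₀ hl₀ => ?_⟩
    obtain ⟨u₀, h1, h2⟩ := hA K₀ (fun a ha => h a (mem_insert_of_mem ha)) l₀ hl₀
    refine ⟨(⟨c, h c (mem_insert_self _ _)⟩ : K₀) • u₀, Submodule.smul_mem _ _ h1, ?_⟩
    rw [mapRat_smul, h2]
    rfl

theorem exists_comp (l : List (RatFun K σ)) (hl : Computation l) :
    ∃ A : Finset K, ∀ K₀ : Subfield K, (∀ a ∈ A, a ∈ K₀) → ∃ l₀ : List (RatFun K₀ σ),
      Computation l₀ ∧ l₀.map (mapRat K₀.subtype) = l := by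
  classical
  induction hl with
  | nil => exact ⟨∅, fun K₀ _ => ⟨[], Computation.nil, rfl⟩⟩
  | mul l u v _ hu hv ih =>
    obtain ⟨A, hA⟩ := ih
    obtain ⟨B, hB⟩ := exists_lin l u hu
    obtain ⟨B', hB'⟩ := exists_lin l v hv
    refine ⟨A ∪ (B ∪ B'), fun K₀ h => ?_⟩
    obtain ⟨l₀, h1, h2⟩ := hA K₀ fun a ha => h a (mem_union_left _ ha)
    obtain ⟨u₀, h3, h4⟩ := hB K₀ (fun a ha =>
      h a (mem_union_right _ (mem_union_left _ ha))) l₀ h2
    obtain ⟨v₀, h5, h6⟩ := hB' K₀ (fun a ha =>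
      h a (mem_union_right _ (mem_union_right _ ha))) l₀ h2
    refine ⟨(u₀ * v₀) :: l₀, Computation.mul _ _ _ h1 h3 h5, ?_⟩
    rw [List.map_cons, map_mul, h2, h4, h6]
  | div l u v _ hu hv hv0 ih =>
    obtain ⟨A, hA⟩ := ih
    obtain ⟨B, hB⟩ := exists_lin l u hu
    obtain ⟨B', hB'⟩ := exists_lin l v hv
    refine ⟨A ∪ (B ∪ B'), fun K₀ h => ?_⟩
    obtain ⟨l₀, h1, h2⟩ := hA K₀ fun a ha => h a (mem_union_left _ ha)
    obtain ⟨u₀, h3, h4⟩ := hB K₀ (fun a ha =>
      h a (mem_union_right _ (mem_union_left _ ha))) l₀ h2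
    obtain ⟨v₀, h5, h6⟩ := hB' K₀ (fun a ha =>
      h a (mem_union_right _ (mem_union_right _ ha))) l₀ h2
    have h7 : v₀ ≠ 0 := by
      rintro rfl
      rw [map_zero] at h6
      exact hv0 h6.symm
    refine ⟨(u₀ / v₀) :: l₀, Computation.div _ _ _ h1 h3 h5 h7, ?_⟩
    rw [List.map_cons, map_div₀, h2, h4, h6]

end fields

theorem map_perm {K K' : Type} [Field K] [Field K'] (ι : K →+* K') (m : ℕ) :
    MvPolynomial.map ι (perm K m) = perm K' m := by
  unfold perm Matrix.permanent
  rw [map_sum]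
  refine sum_congr rfl fun s _ => ?_
  rw [map_prod]
  exact prod_congr rfl fun i _ => by simp

/-- a computation over a field of characteristic zero gives a computation over `ℂ` -/
theorem computed_complex {K : Type} [Field K] [CharZero K] {m L : ℕ}
    (h : Computed (perm K m) L) : Computed (perm ℂ m) L := by
  classical
  obtain ⟨l, h1, h2, h3⟩ := h
  obtain ⟨A, hA⟩ := exists_comp l h1
  obtain ⟨B, hB⟩ := exists_lin l _ h3
  set K₀ : Subfield K := Subfield.closure (↑(A ∪ B) : Set K) with hK₀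
  have hsub : ∀ a ∈ A ∪ B, a ∈ K₀ := fun a ha => Subfield.subset_closure (mem_coe.2 ha)
  obtain ⟨l₀, h4, h5⟩ := hA K₀ fun a ha => hsub a (mem_union_left _ ha)
  obtain ⟨u₀, h6, h7⟩ := hB K₀ (fun a ha => hsub a (mem_union_right _ ha)) l₀ h5
  have h8 : u₀ = toRat (perm K₀ m) := by
    apply (mapRat (σ := Fin m × Fin m) K₀.subtype).injective
    rw [h7, mapRat_toRat, map_perm]
  have hcomp : Computed (perm K₀ m) L := by
    refine ⟨l₀, h4, ?_, h8 ▸ h6⟩
    rw [← h5, List.length_map] at h2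
    exact h2
  have hcard : Cardinal.mk K₀ ≤ Cardinal.continuum := by
    refine (Subfield.cardinalMk_closure_le_max _).trans (max_le ?_ Cardinal.aleph0_le_continuum)
    exact (Cardinal.lt_aleph0_of_finite _).le.trans Cardinal.aleph0_le_continuum
  obtain ⟨j⟩ := Pool.Agent.N111.QC.exists_embed K₀ hcard
  have := hcomp.map j
  rwa [map_perm] at this

open Pool.Agent.L5helper88.CP in
theorem Computation.prog {σ : Type} {l : List (RatFun ℂ σ)} (h : Computation l) :
    Prog (Pool.Agent.L5helper60.LA.xv ℂ : σ → RatFun ℂ σ) l := by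
  induction h with
  | nil => exact Prog.nil
  | mul l u v _ hu hv ih => exact Prog.cons _ u v l ih hu hv (Or.inl rfl)
  | div l u v _ hu hv hv0 ih => exact Prog.cons _ u v l ih hu hv (Or.inr ⟨hv0, rfl⟩)

end Pool.Agent.L5helper88.Model
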