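import Pool.Agent.L5helper88.CP.Size
import Pool.Agent.L5helper67.DC.Points

/-!
# Critical points of a sum of copies of a polynomial in disjoint variables
-/

set_option autoImplicit false

open Finset MvPolynomial

namespace Pool.Agent.L5helper88.CP

section

variable {ρ γ : Type} [Fintype ρ] [Fintype γ] [DecidableEq ρ] [DecidableEq γ] {κ : ℕ}

/-- the variables of one block -/
def bi (l : Fin κ) (v : ρ × γ) : ρ × Fin κ × γ := (v.1, l, v.2)

omit [Fintype ρ] [Fintype γ] [DecidableEq ρ] [DecidableEq γ] in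
theorem bi_inj (l : Fin κ) : Function.Injective (bi l : ρ × γ → ρ × Fin κ × γ) := by
  rintro ⟨i, j⟩ ⟨i', j'⟩ h
  simp only [bi, Prod.mk.injEq, true_and] at h
  rw [h.1, h.2]

/-- the sum of the copies -/
noncomputable def bsum (f : MvPolynomial (ρ × γ) ℂ) (lam : Fin κ → ℂ) :
    MvPolynomial (ρ × Fin κ × γ) ℂ := ∑ l, C (lam l) * rename (bi l) f

omit [Fintype ρ] [Fintype γ] in
theorem pderiv_bsum (f : MvPolynomial (ρ × γ) ℂ) (lam : Fin κ → ℂ) (l : Fin κ) (v : ρ × γ) :
    pderiv (bi l v) (bsum f lam) = C (lam l) * rename (bi l) (pderiv v f) := by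
  unfold bsum
  rw [map_sum, sum_eq_single l]
  · rw [pderiv_C_mul, pderiv_rename (bi_inj l)]
  · intro l' _ hl'
    rw [pderiv_C_mul, L5helper67.DC.pderiv_rename_of_notMem, mul_zero]
    rintro ⟨v', hv'⟩
    simp only [bi, Prod.mk.injEq] at hv'
    exact hl' hv'.2.1
  · intro h
    exact absurd (mem_univ l) h

theorem sum_pderiv_rename (l : Fin κ) (g : MvPolynomial (ρ × γ) ℂ) (z p : ρ × Fin κ × γ → ℂ) :
    ∑ w, z w * eval p (pderiv w (rename (bi l) g)) =
      ∑ v, z (bi l v) * eval (fun v => p (bi l v)) (pderiv v g) := by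
  symm
  refine Fintype.sum_of_injective (bi l) (bi_inj l) _ _ ?_ ?_
  · intro w hw
    rw [L5helper67.DC.pderiv_rename_of_notMem _ _ hw, map_zero, mul_zero]
  · intro v
    rw [pderiv_rename (bi_inj l), eval_rename]
    rfl

theorem crit_bsum (f : MvPolynomial (ρ × γ) ℂ) (lam : Fin κ → ℂ) (hlam : ∀ l, lam l ≠ 0)
    (c : ρ × γ → ℂ) (S : Finset (ρ × γ → ℂ)) (hS : Crit f c S) :
    ∃ (c' : ρ × Fin κ × γ → ℂ) (S' : Finset (ρ × Fin κ × γ → ℂ)),
      S'.card = S.card ^ κ ∧ Crit (bsum f lam) c' S' := by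
  classical
  set gl : (Fin κ → (ρ × γ → ℂ)) → (ρ × Fin κ × γ → ℂ) := fun P w => P w.2.1 (w.1, w.2.2) with hgl
  have hgli : Function.Injective gl := by
    intro P P' h
    funext l v
    exact congrFun h (bi l v)
  have hglb : ∀ P l, (fun v => gl P (bi l v)) = P l := fun P l => rfl
  refine ⟨fun w => lam w.2.1 * c (w.1, w.2.2),
    (Fintype.piFinset fun _ : Fin κ => S).map ⟨gl, hgli⟩, ?_, ?_, ?_⟩
  · rw [card_map, Fintype.card_piFinset, prod_const, card_univ, Fintype.card_fin]
  · intro p hp w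
    rw [mem_map] at hp
    obtain ⟨P, hP, rfl⟩ := hp
    rw [Fintype.mem_piFinset] at hP
    obtain ⟨i, l, j⟩ := w
    have h1 := pderiv_bsum f lam l (i, j)
    change eval (gl P) (pderiv (bi l (i, j)) (bsum f lam)) = _
    rw [h1, map_mul, eval_C, eval_rename]
    congr 1
    exact hS.1 (P l) (hP l) (i, j)
  · intro p hp z hz
    rw [mem_map] at hp
    obtain ⟨P, hP, rfl⟩ := hp
    rw [Fintype.mem_piFinset] at hP
    have h2 : ∀ l, (fun v => z (bi l v)) = 0 := by
      intro l
      apply hS.2 (P l) (hP l)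
      intro v
      have h3 := hz (bi l v)
      have h4 : ∀ w, z w * eval (gl P) (pderiv w (pderiv (bi l v) (bsum f lam))) =
          lam l * (z w * eval (gl P) (pderiv w (rename (bi l) (pderiv v f)))) := by
        intro w
        rw [pderiv_bsum, pderiv_C_mul, map_mul, eval_C]
        ring
      change ∑ w, z w * eval (gl P) (pderiv w (pderiv (bi l v) (bsum f lam))) = 0 at h3
      simp only [h4] at h3
      rw [← mul_sum, sum_pderiv_rename] at h3
      exact (mul_eq_zero.1 h3).resolve_left (hlam l)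
    funext w
    obtain ⟨i, l, j⟩ := w
    exact congrFun (h2 l) (i, j)

end

end Pool.Agent.L5helper88.CP
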