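import Pool.Agent.L5helper88.CP.Count

/-!
# Strassen's degree bound, with divisions

An elementary version for nondegenerate zeros: if the polynomials `g i` (as many as variables) are
quadratic in the members of a chain of rational functions of length `N`, they have at most
`2 ^ (k + N)` common nondegenerate zeros (also at the places where denominators vanish).
-/

set_option autoImplicit false

open Finset MvPolynomial

namespace Pool.Agent.L5helper88.CP

section defs

variable {σ : Type} {F : Type} [Field F] [Algebra ℂ F] (x : σ → F)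

/-- what is available after the members of `B` have been computed: the linear combinations of
them, the inputs `x i` and `1` -/
def Av (B : Set F) : Submodule ℂ F := Submodule.span ℂ (B ∪ (Set.range x ∪ {1}))

/-- the linear combinations of products of two available elements -/
def Q (B : Set F) : Submodule ℂ F :=
  Submodule.span ℂ {a | ∃ u v, u ∈ Av x B ∧ v ∈ Av x B ∧ a = u * v}

variable {x}

theorem Av_mono {B B' : Set F} (h : B ⊆ B') : Av x B ≤ Av x B' :=
  Submodule.span_mono (Set.union_subset_union_left _ h)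

theorem Q_mono {B B' : Set F} (h : B ⊆ B') : Q x B ≤ Q x B' := by
  refine Submodule.span_mono ?_
  rintro a ⟨u, v, hu, hv, rfl⟩
  exact ⟨u, v, Av_mono h hu, Av_mono h hv, rfl⟩

theorem av_mem {B : Set F} {a : F} (ha : a ∈ B) : a ∈ Av x B :=
  Submodule.subset_span (Or.inl ha)

theorem av_var {B : Set F} (i : σ) : x i ∈ Av x B :=
  Submodule.subset_span (Or.inr (Or.inl ⟨i, rfl⟩))

theorem av_one {B : Set F} : (1 : F) ∈ Av x B :=
  Submodule.subset_span (Or.inr (Or.inr rfl))

theorem av_const {B : Set F} (c : ℂ) : algebraMap ℂ F c ∈ Av x B := by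
  rw [Algebra.algebraMap_eq_smul_one]
  exact (Av x B).smul_mem c av_one

theorem Q_mul {B : Set F} {u v : F} (hu : u ∈ Av x B) (hv : v ∈ Av x B) : u * v ∈ Q x B :=
  Submodule.subset_span ⟨u, v, hu, hv, rfl⟩

theorem Q_av {B : Set F} {u : F} (hu : u ∈ Av x B) : u ∈ Q x B := by
  have := Q_mul hu (av_one (x := x) (B := B))
  simpa using this

variable (x)

/-- a list of elements; a nonzero available multiple of each is a quadratic combination of the
later members of the list, the inputs and the constants -/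
inductive Chain : List F → Prop
  | nil : Chain []
  | cons (a v : F) (l : List F) : Chain l → v ∈ Av x {b | b ∈ l} → v ≠ 0 →
      v * a ∈ Q x {b | b ∈ l} → Chain (a :: l)

variable {x}

theorem Chain.get {l : List F} (hl : Chain x l) :
    ∀ j : Fin l.length, ∃ v, v ≠ 0 ∧ v ∈ Av x {b | ∃ i : Fin l.length, j < i ∧ b = l.get i} ∧
      v * l.get j ∈ Q x {b | ∃ i : Fin l.length, j < i ∧ b = l.get i} := by
  induction hl with
  | nil => exact fun j => j.elim0
  | cons a v l _ hv hv0 ha ih =>
    intro j
    refine Fin.cases ?_ (fun j => ?_) j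
    · have hsub : {b | b ∈ l} ⊆
          {b | ∃ i : Fin (a :: l).length, (0 : Fin (l.length + 1)) < i ∧ b = (a :: l).get i} := by
        intro b hb
        obtain ⟨i, hi⟩ := List.get_of_mem hb
        exact ⟨i.succ, Fin.succ_pos i, hi.symm⟩
      exact ⟨v, hv0, Av_mono hsub hv, Q_mono hsub ha⟩
    · obtain ⟨v', h1, h2, h3⟩ := ih j
      have hsub : {b | ∃ i : Fin l.length, j < i ∧ b = l.get i} ⊆
          {b | ∃ i : Fin (a :: l).length, j.succ < i ∧ b = (a :: l).get i} := by
        rintro b ⟨i, hi, rfl⟩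
        exact ⟨i.succ, Fin.succ_lt_succ_iff.2 hi, rfl⟩
      exact ⟨v', h1, Av_mono hsub h2, Q_mono hsub h3⟩

end defs

section dual

variable {F : Type} [Field F] [Algebra ℂ F]

/-- the point `q + ε z` -/
noncomputable def dpt {ι : Type} (q z : ι → F) (i : ι) : TrivSqZeroExt F F :=
  TrivSqZeroExt.inl (q i) + TrivSqZeroExt.inr (z i)

variable {ι : Type} [Fintype ι] [DecidableEq ι]

theorem aeval_dpt (q z : ι → F) (g : MvPolynomial ι ℂ) :
    aeval (dpt q z) g = TrivSqZeroExt.inl (aeval q g) +
      TrivSqZeroExt.inr (∑ i, z i * aeval q (pderiv i g)) := by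
  induction g using MvPolynomial.induction_on with
  | C a =>
    have h1 : algebraMap ℂ (TrivSqZeroExt F F) a = TrivSqZeroExt.inl (algebraMap ℂ F a) := rfl
    rw [aeval_C, h1, aeval_C]
    ext
    · simp
    · simp
  | add f g hf hg =>
    rw [map_add, hf, hg]
    ext
    · simp
    · simp [mul_add, sum_add_distrib]
  | mul_X f i hf =>
    rw [map_mul, hf, aeval_X]
    ext
    · simp [dpt]
    · simp only [dpt, TrivSqZeroExt.snd_mul, TrivSqZeroExt.fst_add, TrivSqZeroExt.fst_inl,
        TrivSqZeroExt.fst_inr, add_zero, TrivSqZeroExt.snd_add, TrivSqZeroExt.snd_inl,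
        TrivSqZeroExt.snd_inr, zero_add, smul_eq_mul, MulOpposite.smul_eq_mul_unop,
        MulOpposite.unop_op, Derivation.leibniz, pderiv_X, map_add, map_mul, aeval_X]
      have h1 : ∀ j, z j * (aeval q f * aeval q (Pi.single (M := fun _ => MvPolynomial ι ℂ) j 1 i) +
          q i * aeval q (pderiv j f)) =
          (if j = i then z j * aeval q f else 0) + z j * aeval q (pderiv j f) * q i := by
        intro j
        by_cases h : j = i
        · subst h
          simp
          ring
        · rw [Pi.single_eq_of_ne (Ne.symm h), if_neg h, map_zero]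
          ring
      simp_rw [h1]
      rw [sum_add_distrib, sum_ite_eq' univ i, if_pos (mem_univ i), ← sum_mul]
      ring

/-- the line `q + X z` -/
noncomputable def ln (q z : ι → F) : MvPolynomial ι ℂ →ₐ[ℂ] Polynomial F :=
  aeval fun i => Polynomial.C (q i) + Polynomial.C (z i) * Polynomial.X

theorem ln_zero (q z : ι → F) (g : MvPolynomial ι ℂ) : (ln q z g).coeff 0 = aeval q g := by
  rw [Polynomial.coeff_zero_eq_eval_zero]
  induction g using MvPolynomial.induction_on with
  | C a =>
    have h1 : algebraMap ℂ (Polynomial F) a = Polynomial.C (algebraMap ℂ F a) := rfl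
    rw [ln, aeval_C, aeval_C, h1, Polynomial.eval_C]
  | add f g hf hg => rw [map_add, Polynomial.eval_add, hf, hg, map_add]
  | mul_X f i hf =>
    rw [map_mul, Polynomial.eval_mul, hf, map_mul]
    simp [ln]

theorem ln_one (q z : ι → F) (g : MvPolynomial ι ℂ) :
    (ln q z g).coeff 1 = ∑ i, z i * aeval q (pderiv i g) := by
  classical
  induction g using MvPolynomial.induction_on with
  | C a =>
    have h1 : algebraMap ℂ (Polynomial F) a = Polynomial.C (algebraMap ℂ F a) := rfl
    rw [ln, aeval_C, h1, Polynomial.coeff_C]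
    simp
  | add f g hf hg =>
    rw [map_add, Polynomial.coeff_add, hf, hg, ← sum_add_distrib]
    refine sum_congr rfl fun i _ => ?_
    rw [map_add, map_add]
    ring
  | mul_X f i hf =>
    have h1 : ln q z (X i) = Polynomial.C (q i) + Polynomial.C (z i) * Polynomial.X := by
      simp [ln]
    have h2 : (ln q z (f * X i)).coeff 1 =
        (ln q z f).coeff 1 * q i + (ln q z f).coeff 0 * z i := by
      rw [map_mul, h1, mul_add, Polynomial.coeff_add, Polynomial.coeff_mul_C, ← mul_assoc,
        show (1 : ℕ) = 0 + 1 from rfl, Polynomial.coeff_mul_X, Polynomial.coeff_mul_C]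
    rw [h2, hf, ln_zero]
    have h3 : ∀ j, z j * aeval q (pderiv j (f * X i)) =
        z j * aeval q (pderiv j f) * q i + (if j = i then aeval q f * z i else 0) := by
      intro j
      rw [pderiv_mul, pderiv_X]
      by_cases h : j = i
      · subst h
        simp
        ring
      · rw [if_neg h, Pi.single_eq_of_ne (by exact fun h' => h h'.symm)]
        simp
        ring
    simp only [h3, sum_add_distrib, ← sum_mul]
    simp

end dual

section formal

variable {σ τ τ' : Type} {F : Type} [Field F] [Algebra ℂ F] {x : σ → F} {x' : τ' → F}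
  (ℓ : τ' → MvPolynomial σ ℂ) (hℓ1 : ∀ j, (ℓ j).totalDegree ≤ 1) (hℓ2 : ∀ j, aeval x (ℓ j) = x' j)

include hℓ1 hℓ2

/-- a polynomial expression for an available element -/
theorem exists_formal_av (T : τ → F) (J : Set τ) (u : F)
    (hu : u ∈ Av x' {b | ∃ i ∈ J, b = T i}) :
    ∃ P : MvPolynomial (σ ⊕ τ) ℂ, P.totalDegree ≤ 1 ∧ aeval (Sum.elim x T) P = u ∧
      ∀ f g : σ ⊕ τ → TrivSqZeroExt F F, (∀ i, f (Sum.inl i) = g (Sum.inl i)) →
        (∀ i ∈ J, f (Sum.inr i) = g (Sum.inr i)) → aeval f P = aeval g P := by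
  unfold Av at hu
  induction hu using Submodule.span_induction with
  | mem u hu =>
    rcases hu with ⟨i, hi, rfl⟩ | ⟨i, rfl⟩ | hu
    · refine ⟨X (Sum.inr i), (totalDegree_X _).le, by simp, fun f g _ h => ?_⟩
      rw [aeval_X, aeval_X, h i hi]
    · refine ⟨rename Sum.inl (ℓ i), (totalDegree_rename_le _ _).trans (hℓ1 i), ?_,
        fun f g h _ => ?_⟩
      · rw [aeval_rename]
        exact hℓ2 i
      · rw [aeval_rename, aeval_rename]
        congr 2
        funext j
        exact h j
    · rw [Set.mem_singleton_iff] at hu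
      subst hu
      exact ⟨1, by simp, by simp, fun f g _ _ => by simp⟩
  | zero => exact ⟨0, by simp, by simp, fun f g _ _ => by simp⟩
  | add x y _ _ hx hy =>
    obtain ⟨P, hP1, hP2, hP3⟩ := hx
    obtain ⟨R, hR1, hR2, hR3⟩ := hy
    refine ⟨P + R, (totalDegree_add P R).trans (max_le hP1 hR1), ?_, fun f g h1 h2 => ?_⟩
    · rw [map_add, hP2, hR2]
    · rw [map_add, map_add, hP3 f g h1 h2, hR3 f g h1 h2]
  | smul c x _ hx =>
    obtain ⟨P, hP1, hP2, hP3⟩ := hx
    refine ⟨c • P, (totalDegree_smul_le c P).trans hP1, ?_, fun f g h1 h2 => ?_⟩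
    · rw [map_smul, hP2]
    · rw [map_smul, map_smul, hP3 f g h1 h2]

/-- a polynomial expression for an element of `Q` -/
theorem exists_formal (T : τ → F) (J : Set τ) (a : F)
    (ha : a ∈ Q x' {b | ∃ i ∈ J, b = T i}) :
    ∃ P : MvPolynomial (σ ⊕ τ) ℂ, P.totalDegree ≤ 2 ∧ aeval (Sum.elim x T) P = a ∧
      ∀ f g : σ ⊕ τ → TrivSqZeroExt F F, (∀ i, f (Sum.inl i) = g (Sum.inl i)) →
        (∀ i ∈ J, f (Sum.inr i) = g (Sum.inr i)) → aeval f P = aeval g P := by
  unfold Q at ha
  induction ha using Submodule.span_induction with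
  | mem x hx =>
    obtain ⟨u, v, hu, hv, rfl⟩ := hx
    obtain ⟨P, hP1, hP2, hP3⟩ := exists_formal_av ℓ hℓ1 hℓ2 T J u hu
    obtain ⟨R, hR1, hR2, hR3⟩ := exists_formal_av ℓ hℓ1 hℓ2 T J v hv
    refine ⟨P * R, (totalDegree_mul P R).trans (by omega), ?_, fun f g h1 h2 => ?_⟩
    · rw [map_mul, hP2, hR2]
    · rw [map_mul, map_mul, hP3 f g h1 h2, hR3 f g h1 h2]
  | zero => exact ⟨0, by simp, by simp, fun f g _ _ => by simp⟩
  | add x y _ _ hx hy =>
    obtain ⟨P, hP1, hP2, hP3⟩ := hx
    obtain ⟨R, hR1, hR2, hR3⟩ := hy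
    refine ⟨P + R, (totalDegree_add P R).trans (max_le hP1 hR1), ?_, fun f g h1 h2 => ?_⟩
    · rw [map_add, hP2, hR2]
    · rw [map_add, map_add, hP3 f g h1 h2, hR3 f g h1 h2]
  | smul c x _ hx =>
    obtain ⟨P, hP1, hP2, hP3⟩ := hx
    refine ⟨c • P, (totalDegree_smul_le c P).trans hP1, ?_, fun f g h1 h2 => ?_⟩
    · rw [map_smul, hP2]
    · rw [map_smul, map_smul, hP3 f g h1 h2]

end formal

section indep

variable {σ : Type} [Fintype σ] [DecidableEq σ] {F : Type} [Field F] [Algebra ℂ F] {N : ℕ}

/-- independence of the family `b_p ∏ R_i ^ a_i ∏ E_j ^ b_j` -/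
theorem indep_family (q : σ ⊕ Fin N → F)
    (hx : Function.Injective (aeval (R := ℂ) fun i => q (Sum.inl i) : MvPolynomial σ ℂ → F))
    (g : σ → MvPolynomial σ ℂ) (R : σ → MvPolynomial (σ ⊕ Fin N) ℂ)
    (hR : ∀ i, aeval q (R i) = aeval (fun i => q (Sum.inl i)) (g i))
    (E : Fin N → MvPolynomial (σ ⊕ Fin N) ℂ) (hE : ∀ j, aeval q (E j) = 0)
    (hsurj : ∀ w : Fin N → F, ∃ s : Fin N → F, ∀ j,
      ∑ i, s i * aeval q (pderiv (Sum.inr i) (E j)) = w j)
    (T : Finset (σ → ℂ)) (hT : ∀ p ∈ T, ∀ j, eval p (g j) = 0)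
    (hnd : ∀ p ∈ T, ∀ z : σ → ℂ, (∀ j, ∑ i, z i * eval p (pderiv i (g j)) = 0) → z = 0)
    (b : (σ → ℂ) → MvPolynomial σ ℂ)
    (hb : ∀ p, ∀ p' ∈ T, eval p' (b p) = if p' = p then 1 else 0)
    (S : Finset (σ ⊕ Fin N → ℕ)) (c : (σ → ℂ) → (σ ⊕ Fin N → ℕ) → ℂ)
    (hc : ∑ p ∈ T, ∑ a ∈ S, C (c p a) *
      (rename Sum.inl (b p) * ∏ j, (Sum.elim R E j) ^ a j) = 0) :
    ∀ p ∈ T, ∀ a ∈ S, c p a = 0 := by
  classical
  have : Infinite F := Infinite.of_injective (algebraMap ℂ F) (RingHom.injective _)
  set x : σ → F := fun i => q (Sum.inl i) with hxdef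
  have key : ∀ r : ℕ, ∀ p ∈ T, ∀ a ∈ S, ∑ j, a (Sum.inr j) = r → c p a = 0 := by
    intro r
    induction r using Nat.strong_induction_on with
    | _ r ih =>
    -- the value of one term
    set V : (σ → ℂ) → (σ ⊕ Fin N → ℕ) → F := fun p a =>
      algebraMap ℂ F (c p a) * (aeval x (b p) * ∏ i, (aeval x (g i)) ^ a (Sum.inl i)) with hV
    have hw : ∀ w : Fin N → F, ∑ p ∈ T, ∑ a ∈ S.filter (fun a => ∑ j, a (Sum.inr j) = r),
        V p a * ∏ j, w j ^ a (Sum.inr j) = 0 := by
      intro w
      obtain ⟨s, hs⟩ := hsurj w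
      set z : σ ⊕ Fin N → F := Sum.elim (fun _ => 0) s with hz
      have hgj : ∀ j, ∃ h : Polynomial F, ln q z (E j) = Polynomial.X * h ∧
          h.coeff 0 = w j := by
        intro j
        have h0 : (ln q z (E j)).coeff 0 = 0 := by rw [ln_zero]; exact hE j
        obtain ⟨h, hh⟩ := Polynomial.X_dvd_iff.2 h0
        refine ⟨h, hh, ?_⟩
        have h1 := ln_one q z (E j)
        rw [hh, mul_comm, show (1 : ℕ) = 0 + 1 from rfl, Polynomial.coeff_mul_X] at h1
        rw [h1, Fintype.sum_sum_type]
        simp only [hz, Sum.elim_inl, Sum.elim_inr, zero_mul, sum_const_zero, zero_add]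
        exact hs j
      choose h hh h0 using hgj
      have h1 := congrArg (fun f => (ln q z f).coeff r) hc
      simp only [map_sum, map_mul, map_prod, map_pow, map_zero, Polynomial.coeff_zero,
        Polynomial.finsetSum_coeff] at h1
      have h2 : ∀ p ∈ T, ∀ a ∈ S, (ln q z (C (c p a)) *
          (ln q z (rename Sum.inl (b p)) * ∏ j, ln q z (Sum.elim R E j) ^ a j)).coeff r =
          if ∑ j, a (Sum.inr j) = r then V p a * ∏ j, w j ^ a (Sum.inr j) else 0 := by
        intro p hp a ha
        have h3 : ln q z (C (c p a)) = Polynomial.C (algebraMap ℂ F (c p a)) := by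
          rw [ln, aeval_C]
          rfl
        have h4 : ln q z (C (c p a)) *
            (ln q z (rename Sum.inl (b p)) * ∏ j, ln q z (Sum.elim R E j) ^ a j) =
            (Polynomial.C (algebraMap ℂ F (c p a)) * (ln q z (rename Sum.inl (b p)) *
              ((∏ i, ln q z (R i) ^ a (Sum.inl i)) * ∏ j, h j ^ a (Sum.inr j)))) *
              Polynomial.X ^ (∑ j, a (Sum.inr j)) := by
          rw [h3, ← prod_pow_eq_pow_sum, Fintype.prod_sum_type]
          simp only [Sum.elim_inl, Sum.elim_inr, hh, mul_pow, prod_mul_distrib]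
          ring
        rw [h4, Polynomial.coeff_mul_X_pow']
        rcases lt_trichotomy (∑ j, a (Sum.inr j)) r with hlt | heq | hgt
        · rw [if_pos hlt.le, ih _ hlt p hp a ha rfl, if_neg hlt.ne]
          simp
        · rw [if_pos heq.le, heq, Nat.sub_self, Polynomial.coeff_C_mul,
            Polynomial.mul_coeff_zero, Polynomial.mul_coeff_zero, ln_zero, if_pos rfl,
            aeval_rename]
          have h5 : (∏ j, h j ^ a (Sum.inr j)).coeff 0 = ∏ j, w j ^ a (Sum.inr j) := by
            rw [Polynomial.coeff_zero_eq_eval_zero, Polynomial.eval_prod]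
            refine prod_congr rfl fun j _ => ?_
            rw [Polynomial.eval_pow, ← Polynomial.coeff_zero_eq_eval_zero, h0]
          have h6 : (∏ i, ln q z (R i) ^ a (Sum.inl i)).coeff 0 =
              ∏ i, (aeval x (g i)) ^ a (Sum.inl i) := by
            rw [Polynomial.coeff_zero_eq_eval_zero, Polynomial.eval_prod]
            refine prod_congr rfl fun i _ => ?_
            rw [Polynomial.eval_pow, ← Polynomial.coeff_zero_eq_eval_zero, ln_zero, hR]
          rw [h5, h6, hV]
          simp only [Function.comp_def]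
          ring
        · rw [if_neg (not_le.2 hgt), if_neg hgt.ne']
      rw [sum_congr rfl fun p hp => sum_congr rfl fun a ha => h2 p hp a ha] at h1
      simpa only [sum_filter] using h1
    intro p0 hp0 a0 ha0 har
    set S' := S.filter (fun a => ∑ j, a (Sum.inr j) = r) with hS'
    set β : (σ ⊕ Fin N → ℕ) → (Fin N →₀ ℕ) := fun a =>
      Finsupp.equivFunOnFinite.symm fun j => a (Sum.inr j) with hβ
    set P : MvPolynomial (Fin N) F := ∑ p ∈ T, ∑ a ∈ S', monomial (β a) (V p a) with hP
    have hP0 : P = 0 := by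
      apply MvPolynomial.funext
      intro w
      rw [hP, map_sum, map_zero, ← hw w]
      refine sum_congr rfl fun p _ => ?_
      rw [map_sum]
      refine sum_congr rfl fun a _ => ?_
      rw [eval_monomial, Finsupp.prod_fintype _ _ (fun _ => pow_zero _)]
      rfl
    have h1 := congrArg (coeff (β a0)) hP0
    rw [hP, coeff_sum, coeff_zero] at h1
    simp only [coeff_sum, coeff_monomial] at h1
    -- back to polynomials in the inputs
    set β0 : Fin N → ℕ := fun j => a0 (Sum.inr j) with hβ0
    have hβeq : ∀ a : σ ⊕ Fin N → ℕ, β a = β a0 ↔ (fun j => a (Sum.inr j)) = β0 := by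
      intro a
      simp only [hβ, hβ0]
      exact Finsupp.equivFunOnFinite.symm.injective.eq_iff
    set S0 := S.filter (fun a => (fun j => a (Sum.inr j)) = β0) with hS0
    have hS0' : ∀ p, ∑ a ∈ S', (if β a = β a0 then V p a else 0) = ∑ a ∈ S0, V p a := by
      intro p
      rw [← sum_filter]
      refine sum_congr ?_ fun _ _ => rfl
      ext a
      simp only [hS', hS0, mem_filter, hβeq]
      constructor
      · rintro ⟨⟨h, _⟩, h'⟩
        exact ⟨h, h'⟩
      · rintro ⟨h, h'⟩
        refine ⟨⟨h, ?_⟩, h'⟩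
        rw [← har]
        exact sum_congr rfl fun j _ => congrFun h' j
    simp only [hS0'] at h1
    have h2 : ∑ p ∈ T, ∑ α ∈ S0.image (fun a => fun i => a (Sum.inl i)),
        C (c p (Sum.elim α β0)) * (b p * ∏ i, g i ^ α i) = 0 := by
      apply hx
      rw [map_zero, map_sum, ← h1]
      refine sum_congr rfl fun p _ => ?_
      rw [sum_image, map_sum]
      · refine sum_congr rfl fun a ha => ?_
        have h3 : (Sum.elim (fun i => a (Sum.inl i)) β0 : σ ⊕ Fin N → ℕ) = a := by
          funext k
          cases k with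
          | inl k => rfl
          | inr k => exact (congrFun (mem_filter.1 ha).2 k).symm
        rw [h3, hV, map_mul, map_mul, map_prod, aeval_C]
        simp only [map_pow]
      · intro a ha a' ha' h
        funext k
        cases k with
        | inl k => exact congrFun h k
        | inr k =>
          have e1 := congrFun (mem_filter.1 (mem_coe.1 ha)).2 k
          have e2 := congrFun (mem_filter.1 (mem_coe.1 ha')).2 k
          exact e1.trans e2.symm
    have h4 := Pool.Agent.L5helper18.DC.indep rfl g T hT hnd b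
      (fun p hp => by rw [hb p p hp, if_pos rfl])
      (fun p _ p' hp' hne => by rw [hb p p' hp', if_neg hne]) _
      (fun p α => c p (Sum.elim α β0)) h2 p0 hp0 (fun i => a0 (Sum.inl i))
      (mem_image.2 ⟨a0, mem_filter.2 ⟨ha0, rfl⟩, rfl⟩)
    have h5 : (Sum.elim (fun i => a0 (Sum.inl i)) β0 : σ ⊕ Fin N → ℕ) = a0 := by
      funext k
      cases k <;> rfl
    rwa [h5] at h4
  intro p hp a ha
  exact key _ p hp a ha rfl

end indep

/-- **Strassen's degree bound** for nondegenerate zeros, with divisions. The inputs `x'` are affine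
forms in the independent elements `x`. -/
theorem degree_bound {σ τ' : Type} [Fintype σ] [DecidableEq σ] {F : Type} [Field F] [Algebra ℂ F]
    {x : σ → F} (hx : Function.Injective (aeval (R := ℂ) x : MvPolynomial σ ℂ → F))
    {x' : τ' → F} (ℓ : τ' → MvPolynomial σ ℂ) (hℓ1 : ∀ j, (ℓ j).totalDegree ≤ 1)
    (hℓ2 : ∀ j, aeval x (ℓ j) = x' j)
    {l : List F} (hl : Chain x' l) (g : σ → MvPolynomial σ ℂ)
    (hg : ∀ i, aeval x (g i) ∈ Q x' {b | b ∈ l})
    (S : Finset (σ → ℂ)) (hS : ∀ p ∈ S, ∀ i, eval p (g i) = 0)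
    (hnd : ∀ p ∈ S, ∀ z : σ → ℂ, (∀ j, ∑ i, z i * eval p (pderiv i (g j)) = 0) → z = 0) :
    S.card ≤ 2 ^ (Fintype.card σ + l.length) := by
  classical
  set T : Fin l.length → F := l.get with hT
  set q : σ ⊕ Fin l.length → F := Sum.elim x T with hq
  have h1 : ∀ j : Fin l.length, ∃ E : MvPolynomial (σ ⊕ Fin l.length) ℂ, E.totalDegree ≤ 2 ∧
      aeval q E = 0 ∧ ∀ s : Fin l.length → F, (∀ i, j < i → s i = 0) →
        ∑ i, s i * aeval q (pderiv (Sum.inr i) E) = 0 → s j = 0 := by
    intro j
    obtain ⟨v, hv0, hv, hva⟩ := hl.get j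
    obtain ⟨V, hV1, hV2, hV3⟩ := exists_formal_av ℓ hℓ1 hℓ2 T {i | j < i} v hv
    obtain ⟨P, hP1, hP2, hP3⟩ := exists_formal ℓ hℓ1 hℓ2 T {i | j < i} (v * l.get j) hva
    have hev : aeval q (V * X (Sum.inr j) - P) = 0 := by
      rw [map_sub, map_mul, hV2, hP2, aeval_X]
      simp [hq, hT]
    refine ⟨V * X (Sum.inr j) - P, ?_, hev, fun s hs hs0 => ?_⟩
    · refine (totalDegree_sub _ _).trans (max_le ?_ hP1)
      refine (totalDegree_mul _ _).trans ?_
      rw [totalDegree_X]
      omega
    · have h2 := aeval_dpt q (Sum.elim (fun _ => 0) s) (V * X (Sum.inr j) - P)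
      rw [hev, Fintype.sum_sum_type] at h2
      simp only [Sum.elim_inl, Sum.elim_inr, zero_mul, sum_const_zero, zero_add] at h2
      rw [hs0] at h2
      set y : σ ⊕ Fin l.length → TrivSqZeroExt F F := dpt q (Sum.elim (fun _ => 0) s) with hy
      set y0 : σ ⊕ Fin l.length → TrivSqZeroExt F F := fun i => TrivSqZeroExt.inl (q i) with hy0
      have e1 : ∀ i, y (Sum.inl i) = y0 (Sum.inl i) := by
        intro i
        simp [hy, hy0, dpt]
      have e2 : ∀ i ∈ {i | j < i}, y (Sum.inr i) = y0 (Sum.inr i) := by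
        intro i hi
        simp [hy, hy0, dpt, hs i hi]
      have e3 : ∀ P : MvPolynomial (σ ⊕ Fin l.length) ℂ,
          aeval y0 P = TrivSqZeroExt.inl (aeval q P) := by
        intro P
        have := aeval_dpt q (fun _ => 0) P
        have h4 : dpt q (fun _ => 0) = y0 := by
          funext i
          simp [hy0, dpt]
        rw [h4] at this
        rw [this]
        simp
      rw [map_sub, map_mul, hV3 y y0 e1 e2, hP3 y y0 e1 e2, e3, e3, hV2, hP2, aeval_X] at h2
      have h3 := congrArg TrivSqZeroExt.snd h2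
      have h4 : v * s j = 0 := by
        simpa [hy, dpt] using h3
      exact (mul_eq_zero.1 h4).resolve_left hv0
  have h2 : ∀ j, ∃ P : MvPolynomial (σ ⊕ Fin l.length) ℂ, P.totalDegree ≤ 2 ∧
      aeval q P = aeval x (g j) := by
    intro j
    obtain ⟨P, hP1, hP2, _⟩ := exists_formal ℓ hℓ1 hℓ2 T Set.univ (aeval x (g j)) (Q_mono (by
      intro b hb
      obtain ⟨i, hi⟩ := List.get_of_mem hb
      exact ⟨i, Set.mem_univ _, hi.symm⟩) (hg j))
    exact ⟨P, hP1, hP2⟩
  choose E hE1 hE2 hE3 using h1
  choose R hR1 hR2 using h2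
  -- the transversal linear forms
  have hsurj : ∀ w : Fin l.length → F, ∃ s : Fin l.length → F, ∀ j,
      ∑ i, s i * aeval q (pderiv (Sum.inr i) (E j)) = w j := by
    set ℓ : (Fin l.length → F) →ₗ[F] (Fin l.length → F) :=
      { toFun := fun z j => ∑ i, z i * aeval q (pderiv (Sum.inr i) (E j))
        map_add' := fun x y => by
          funext j
          simp only [Pi.add_apply, add_mul, sum_add_distrib]
        map_smul' := fun t x => by
          funext j
          simp only [Pi.smul_apply, smul_eq_mul, RingHom.id_apply, mul_sum, mul_assoc] } with hℓ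
    have hinj : Function.Injective ℓ := by
      rw [← LinearMap.ker_eq_bot, LinearMap.ker_eq_bot']
      intro s hs
      have h3 : ∀ j, s j = 0 := by
        intro j
        induction j using WellFoundedGT.induction with
        | ind j ih => exact hE3 j s ih (congrFun hs j)
      exact funext h3
    have hsur : Function.Surjective ℓ := LinearMap.injective_iff_surjective.1 hinj
    intro w
    obtain ⟨s, hs⟩ := hsur w
    exact ⟨s, fun j => congrFun hs j⟩
  choose b hb using fun p => Pool.Agent.L5helper18.DC.exists_interp S p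
  have key := count_bound (K := ℂ) (ι := σ ⊕ Fin l.length) (κ := σ ⊕ Fin l.length) rfl
    (fun _ => 1) (fun _ => le_rfl) (fun _ => 2) (fun _ => by norm_num) (Sum.elim R E) ?_ S
    (fun p => rename Sum.inl (b p))
    (fun S' c hc => indep_family q hx g R hR2 E hE2 hsurj S hS hnd b hb S' c hc)
  · simpa using key
  · intro j m hm
    have h3 : (Sum.elim R E j).totalDegree ≤ 2 := by
      cases j with
      | inl j => exact hR1 j
      | inr j => exact hE1 j
    have h4 := le_totalDegree hm
    rw [Finsupp.sum_fintype _ _ (fun _ => rfl)] at h4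
    simpa using h4.trans h3

end Pool.Agent.L5helper88.CP
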