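import Pool.Agent.L5helper18.DC.Bezout

/-!
# The counting step of the weighted Bezout inequality, for an arbitrary independent family

(Adapted from `weighted_bezout` of helper18.)
-/

set_option autoImplicit false

open Finset MvPolynomial

namespace Pool.Agent.L5helper88.CP

open Pool.Agent.L5helper18.DC

theorem count_bound {K : Type*} [Field K] {ι κ α : Type} [Fintype ι] [Fintype κ] [DecidableEq ι]
    [DecidableEq κ] [DecidableEq α] (hcard : Fintype.card κ = Fintype.card ι) (w : ι → ℕ)
    (hw : ∀ i, 1 ≤ w i) (d : κ → ℕ) (hd : ∀ j, 1 ≤ d j) (g : κ → MvPolynomial ι K)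
    (hg : ∀ j, ∀ m ∈ (g j).support, ∑ i, m i * w i ≤ d j)
    (T : Finset α) (b : α → MvPolynomial ι K)
    (hind : ∀ (S : Finset (κ → ℕ)) (c : α → (κ → ℕ) → K),
      ∑ p ∈ T, ∑ a ∈ S, C (c p a) * (b p * ∏ j, g j ^ a j) = 0 → ∀ p ∈ T, ∀ a ∈ S, c p a = 0) :
    T.card * ∏ i, w i ≤ ∏ j, d j := by
  classical
  choose B hB using fun p => exists_WD w (b p)
  set c := ∑ p ∈ T, B p with hc
  have hbc : ∀ p ∈ T, WD w c (b p) := fun p hp =>
    (hB p).mono (single_le_sum (f := B) (fun _ _ => Nat.zero_le _) hp)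
  -- the count
  have hcount : ∀ D, T.card * (Sw d D).card ≤ (Sw w (D + c)).card := by
    intro D
    set s : Set (ι →₀ ℕ) := {m | ∑ i, m i * w i ≤ D + c} with hs
    have hmem : ∀ x : T × Sw d D, b x.1.1 * ∏ j, g j ^ x.2.1 j ∈ restrictSupport K s := by
      rintro ⟨⟨p, hp⟩, ⟨a, ha⟩⟩
      rw [mem_restrictSupport_iff]
      intro m hm
      have h1 : WD w (∑ j, a j * d j) (∏ j, g j ^ a j) :=
        WD.prod fun j _ => WD.pow (hg j) (a j)
      have h2 := (hbc p hp).mul h1 m hm
      rw [mem_Sw hd] at ha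
      change ∑ i, m i * w i ≤ D + c
      omega
    set v : T × Sw d D → restrictSupport K s := fun x => ⟨_, hmem x⟩ with hv
    have hli : LinearIndependent K v := by
      rw [Fintype.linearIndependent_iff]
      intro e he
      set e' : α → (κ → ℕ) → K := fun p a =>
        if h : p ∈ T ∧ a ∈ Sw d D then e (⟨p, h.1⟩, ⟨a, h.2⟩) else 0 with he'
      have h1 : ∑ p ∈ T, ∑ a ∈ Sw d D, C (e' p a) * (b p * ∏ j, g j ^ a j) = 0 := by
        have h2 := congrArg Subtype.val he
        rw [AddSubmonoidClass.coe_finset_sum] at h2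
        rw [Fintype.sum_prod_type] at h2
        refine Eq.trans ?_ h2
        rw [← sum_coe_sort]
        refine sum_congr rfl fun p _ => ?_
        rw [← sum_coe_sort]
        refine sum_congr rfl fun a _ => ?_
        simp only [he', hv, Submodule.coe_smul, smul_eq_C_mul]
        rw [dif_pos ⟨p.2, a.2⟩]
      have h2 := hind (Sw d D) e' h1
      rintro ⟨⟨p, hp⟩, ⟨a, ha⟩⟩
      have h3 := h2 p hp a ha
      simp only [he'] at h3
      rwa [dif_pos ⟨hp, ha⟩] at h3
    have hfin : Finite s := by
      refine Set.Finite.to_subtype ?_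
      refine Set.Finite.subset ((Sw w (D + c)).image
        (fun a => Finsupp.equivFunOnFinite.symm a)).finite_toSet ?_
      intro m hm
      rw [mem_coe, mem_image]
      exact ⟨m, (mem_Sw hw).2 hm, Finsupp.equivFunOnFinite.symm_apply_apply m⟩
    haveI : Fintype s := Fintype.ofFinite s
    have hbasis := basisRestrictSupport K s
    haveI : Module.Finite K (restrictSupport K s) := Module.Finite.of_basis hbasis
    have h1 := hli.fintype_card_le_finrank
    rw [Module.finrank_eq_card_basis hbasis, Fintype.card_prod, Fintype.card_coe,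
      Fintype.card_coe] at h1
    refine h1.trans ?_
    rw [← Fintype.card_coe]
    refine Fintype.card_le_of_injective (fun m => (⟨fun i => m.1 i, (mem_Sw hw).2 m.2⟩ :
      Sw w (D + c))) ?_
    intro m m' h
    rw [Subtype.mk.injEq] at h
    exact Subtype.ext (Finsupp.ext fun i => congrFun h i)
  -- conclusion
  refine growth (N := fun D => (Sw (fun _ : κ => 1) D).card) (c := c + ∑ i, w i)
    (M := Fintype.card κ) Sw_zero Sw_le fun D => ?_
  obtain e := Fintype.equivOfCardEq hcard
  calc (T.card * ∏ i, w i) * (Sw (fun _ : κ => 1) D).card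
      ≤ (T.card * ∏ i, w i) * ((Sw d D).card * ∏ j, d j) := Nat.mul_le_mul_left _ (Sw_lower hd D)
    _ = (∏ j, d j) * ((T.card * (Sw d D).card) * ∏ i, w i) := by ring
    _ ≤ (∏ j, d j) * ((Sw w (D + c)).card * ∏ i, w i) :=
        Nat.mul_le_mul_left _ (Nat.mul_le_mul_right _ (hcount D))
    _ ≤ (∏ j, d j) * (Sw (fun _ : ι => 1) (D + c + ∑ i, w i)).card :=
        Nat.mul_le_mul_left _ (Sw_upper hw _)
    _ ≤ (∏ j, d j) * (Sw (fun _ : κ => 1) (D + (c + ∑ i, w i))).card := by
        rw [add_assoc]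
        exact Nat.mul_le_mul_left _ (Sw_transport e _)

end Pool.Agent.L5helper88.CP
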