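import Pool.Agent.L5helper88.CP.Transfer
import Pool.Agent.L5helper18.DC.Persist

/-!
# Nondegenerate critical points survive a small change of the polynomial
-/

set_option autoImplicit false

open Finset MvPolynomial

namespace Pool.Agent.L5helper88.CP

section

variable {σ : Type} [Fintype σ] [DecidableEq σ]

/-- `S` consists of nondegenerate critical points of `f` relative to the linear form `c` -/
def Crit (f : MvPolynomial σ ℂ) (c : σ → ℂ) (S : Finset (σ → ℂ)) : Prop :=
  (∀ p ∈ S, ∀ i, eval p (pderiv i f) = c i) ∧
    ∀ p ∈ S, ∀ z : σ → ℂ, (∀ j, ∑ i, z i * eval p (pderiv i (pderiv j f)) = 0) → z = 0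

/-- the graph polynomial -/
noncomputable def gr (f : MvPolynomial σ ℂ) : MvPolynomial (Option σ) ℂ :=
  X none - rename some f

omit [Fintype σ] in
theorem pderiv_gr_none (f : MvPolynomial σ ℂ) : pderiv none (gr f) = 1 := by
  unfold gr
  rw [map_sub, pderiv_X_self, pderiv_eq_zero_of_notMem_vars, sub_zero]
  intro h
  have h1 := vars_rename some f h
  rw [mem_image] at h1
  obtain ⟨a, _, ha⟩ := h1
  exact Option.some_ne_none a ha

omit [Fintype σ] in
theorem pderiv_gr_some (f : MvPolynomial σ ℂ) (i : σ) :
    pderiv (some i) (gr f) = -rename some (pderiv i f) := by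
  unfold gr
  rw [map_sub, pderiv_X_of_ne (by simp), pderiv_rename (Option.some_injective σ), zero_sub]

omit [Fintype σ] in
theorem pderiv_none_rename (f : MvPolynomial σ ℂ) : pderiv none (rename some f) = 0 := by
  apply pderiv_eq_zero_of_notMem_vars
  intro h
  have h1 := vars_rename some f h
  rw [mem_image] at h1
  obtain ⟨a, _, ha⟩ := h1
  exact Option.some_ne_none a ha

/-- the directions -/
def wd (c : σ → ℂ) (e : σ) : Option σ → ℂ
  | none => c e
  | some i => if i = e then 1 else 0

theorem sum_wd (c : σ → ℂ) (e : σ) (g : Option σ → ℂ) :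
    ∑ i, wd c e i * g i = c e * g none + g (some e) := by
  rw [Fintype.sum_option]
  simp [wd]

theorem gr_first (f : MvPolynomial σ ℂ) (c : σ → ℂ) (P : Option σ → ℂ) (e : σ) :
    ∑ i, wd c e i * eval P (pderiv i (gr f)) = c e - eval (fun i => P (some i)) (pderiv e f) := by
  rw [sum_wd c e (fun i => eval P (pderiv i (gr f))), pderiv_gr_none, pderiv_gr_some]
  simp only [map_one, mul_one, map_neg, eval_rename]
  rfl

theorem gr_tangent (f : MvPolynomial σ ℂ) (P z : Option σ → ℂ) :
    ∑ i, z i * eval P (pderiv i (gr f)) =
      z none - ∑ i, z (some i) * eval (fun i => P (some i)) (pderiv i f) := by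
  rw [Fintype.sum_option, pderiv_gr_none]
  simp only [map_one, mul_one, pderiv_gr_some, map_neg, eval_rename, mul_neg, sum_neg_distrib,
    sub_eq_add_neg]
  rfl

theorem gr_second (f : MvPolynomial σ ℂ) (c : σ → ℂ) (P z : Option σ → ℂ) (e : σ) :
    ∑ i, ∑ j, z j * wd c e i * eval P (pderiv j (pderiv i (gr f))) =
      -∑ j, z (some j) * eval (fun i => P (some i)) (pderiv j (pderiv e f)) := by
  have h1 : ∑ i, ∑ j, z j * wd c e i * eval P (pderiv j (pderiv i (gr f))) =
      ∑ i, wd c e i * ∑ j, z j * eval P (pderiv j (pderiv i (gr f))) := by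
    refine sum_congr rfl fun i _ => ?_
    rw [mul_sum]
    exact sum_congr rfl fun j _ => by ring
  rw [h1, sum_wd c e (fun i => ∑ j, z j * eval P (pderiv j (pderiv i (gr f))))]
  have h2 : ∑ j, z j * eval P (pderiv j (pderiv none (gr f))) = 0 := by
    refine sum_eq_zero fun j _ => ?_
    rw [pderiv_gr_none]
    simp
  rw [h2, mul_zero, zero_add, pderiv_gr_some, Fintype.sum_option, map_neg, pderiv_none_rename,
    neg_zero, map_zero, mul_zero, zero_add, ← sum_neg_distrib]
  refine sum_congr rfl fun j _ => ?_
  rw [map_neg, pderiv_rename (Option.some_injective σ), map_neg, eval_rename, mul_neg]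
  rfl

/-- **Persistence of nondegenerate critical points.** -/
theorem crit_persist (f : MvPolynomial σ ℂ) (fk : ℕ → MvPolynomial σ ℂ) (D : ℕ)
    (hdeg : ∀ k, (fk k).totalDegree ≤ D)
    (hlim : ∀ m, Filter.Tendsto (fun k => coeff m (fk k)) Filter.atTop (nhds (coeff m f)))
    (c : σ → ℂ) (S : Finset (σ → ℂ)) (hS : Crit f c S) :
    ∃ k, ∃ S' : Finset (σ → ℂ), S'.card = S.card ∧ Crit (fk k) c S' := by
  classical
  obtain ⟨hS1, hS2⟩ := hS
  set up : (σ → ℂ) → (Option σ → ℂ) := fun p o =>
    match o with
    | none => eval p f
    | some i => p i with hup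
  have hupi : Function.Injective up := by
    intro p p' h
    funext i
    exact congrFun h (some i)
  have hcoeff : ∀ (g : MvPolynomial σ ℂ) (m : Option σ →₀ ℕ), coeff m (gr g) =
      coeff m (X none : MvPolynomial (Option σ) ℂ) - coeff m (rename some g) := by
    intro g m
    unfold gr
    rw [coeff_sub]
  have key := Pool.Agent.L5helper18.DC.persist (ι := Option σ) (κ := σ)
    Fintype.card_option (gr f) (fun k => gr (fk k)) (max 1 D) ?_ ?_ (wd c)
    (S.map ⟨up, hupi⟩) ?_ ?_ ?_
  · obtain ⟨k, S', h1, h2, h3, h4⟩ := key
    refine ⟨k, S'.image fun P i => P (some i), ?_, ?_, ?_⟩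
    · rw [card_image_of_injOn, h1, card_map]
      intro P hP P' hP' h
      have e : ∀ P ∈ S', P none = eval (fun i => P (some i)) (fk k) := by
        intro P hP
        have := h2 P hP
        simp only [gr, map_sub, eval_X, eval_rename] at this
        exact sub_eq_zero.1 this
      funext o
      cases o with
      | none =>
        rw [e P hP, e P' hP']
        exact congrArg (fun p => eval p (fk k)) h
      | some i => exact congrFun h i
    · intro p hp i
      rw [mem_image] at hp
      obtain ⟨P, hP, rfl⟩ := hp
      have := h3 P hP i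
      rw [gr_first] at this
      exact (sub_eq_zero.1 this).symm
    · intro p hp z hz
      rw [mem_image] at hp
      obtain ⟨P, hP, rfl⟩ := hp
      have h5 := h4 P hP (fun o => match o with
        | none => ∑ i, z i * eval (fun i => P (some i)) (pderiv i (fk k))
        | some i => z i) (by
          rw [gr_tangent]
          simp) (by
          intro e
          rw [gr_second]
          simp only
          rw [hz e, neg_zero])
      funext i
      exact congrFun h5 (some i)
  · intro k
    unfold gr
    refine (totalDegree_sub _ _).trans (max_le ?_ ?_)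
    · rw [totalDegree_X]
      exact le_max_left _ _
    · exact (totalDegree_rename_le _ _).trans ((hdeg k).trans (le_max_right _ _))
  · intro m
    simp only [hcoeff]
    refine Filter.Tendsto.sub tendsto_const_nhds ?_
    by_cases hm : ∃ u : σ →₀ ℕ, u.mapDomain some = m
    · obtain ⟨u, rfl⟩ := hm
      simp only [coeff_rename_mapDomain _ (Option.some_injective σ)]
      exact hlim u
    · push Not at hm
      have h0 : ∀ g : MvPolynomial σ ℂ, coeff m (rename some g) = 0 := by
        intro g
        apply coeff_rename_eq_zero
        intro u hu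
        exact absurd hu (hm u)
      simp only [h0]
      exact tendsto_const_nhds
  · intro P hP
    rw [mem_map] at hP
    obtain ⟨p, _, rfl⟩ := hP
    simp only [gr, map_sub, eval_X, eval_rename]
    exact sub_self _
  · intro P hP e
    rw [mem_map] at hP
    obtain ⟨p, hp, rfl⟩ := hP
    rw [gr_first]
    exact sub_eq_zero.2 (hS1 p hp e).symm
  · intro P hP z hz1 hz2
    rw [mem_map] at hP
    obtain ⟨p, hp, rfl⟩ := hP
    rw [gr_tangent] at hz1
    have h5 : (fun i => z (some i)) = 0 := by
      apply hS2 p hp
      intro j
      have := hz2 j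
      rw [gr_second] at this
      exact neg_eq_zero.1 this
    funext o
    cases o with
    | some i => exact congrFun h5 i
    | none =>
      rw [sum_eq_zero (s := univ) (fun i _ => by
        rw [show z (some i) = 0 from congrFun h5 i, zero_mul]), sub_zero] at hz1
      exact hz1

end

end Pool.Agent.L5helper88.CP
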