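import Pool.Agent.L5helper88.CP.Chain
import Pool.Agent.L5helper60.LA.Gen

/-!
# Programs and the theorem of Baur and Strassen in the form of a chain of length `2 L`
-/

set_option autoImplicit false

open Finset MvPolynomial

namespace Pool.Agent.L5helper88.CP

section

variable {σ : Type} {F : Type} [Field F] [Algebra ℂ F] (x : σ → F)

/-- straight line programs: the list of the results of the nonscalar multiplications and
divisions, the last one first; linear operations are free -/
inductive Prog : List F → Prop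
  | nil : Prog []
  | cons (a u v : F) (l : List F) : Prog l → u ∈ Av x {b | b ∈ l} → v ∈ Av x {b | b ∈ l} →
      (a = u * v ∨ (v ≠ 0 ∧ a = u / v)) → Prog (a :: l)

variable {x}

theorem Q_const {B : Set F} {c : ℂ} {a : F} (ha : a ∈ Q x B) :
    algebraMap ℂ F c * a ∈ Q x B := by
  rw [← Algebra.smul_def]
  exact (Q x B).smul_mem c ha

theorem av_head {a : F} {l : List F} : a ∈ Av x {b | b ∈ a :: l} := av_mem List.mem_cons_self

theorem sub_cons {a : F} {l : List F} : {b | b ∈ l} ⊆ {b | b ∈ a :: l} :=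
  fun _ hb => List.mem_cons_of_mem _ hb

theorem Prog.chain {l : List F} (hl : Prog x l) : Chain x l := by
  induction hl with
  | nil => exact Chain.nil
  | cons a u v l _ hu hv h ih =>
    rcases h with rfl | ⟨hv0, rfl⟩
    · refine Chain.cons _ 1 l ih av_one one_ne_zero ?_
      rw [one_mul]
      exact Q_mul hu hv
    · refine Chain.cons _ v l ih hv hv0 ?_
      rw [mul_div_cancel₀ _ hv0]
      exact Q_av hu

/-- Partial derivatives with respect to `x`. -/
structure IsDer [DecidableEq σ] (x : σ → F) (D : σ → F → F) : Prop where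
  add : ∀ i a b, D i (a + b) = D i a + D i b
  mul : ∀ i a b, D i (a * b) = D i a * b + a * D i b
  const : ∀ i (c : ℂ), D i (algebraMap ℂ F c) = 0
  var : ∀ i j, D i (x j) = if j = i then 1 else 0

variable [Fintype σ] [DecidableEq σ] {D : σ → F → F}

omit [Fintype σ] in
theorem IsDer.inj (h : IsDer x D) : Function.Injective x := by
  intro i j e
  have h1 := h.var i i
  have h2 := h.var i j
  rw [if_pos rfl] at h1
  rw [← e, h1] at h2
  by_contra hne
  rw [if_neg (Ne.symm hne)] at h2
  exact one_ne_zero h2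

omit [Fintype σ] in
theorem IsDer.div (h : IsDer x D) (i : σ) (u v : F) (hv : v ≠ 0) :
    D i (u / v) = (D i u - u / v * D i v) / v := by
  have h1 : u = (u / v) * v := by field_simp
  have h2 := h.mul i (u / v) v
  rw [← h1] at h2
  rw [eq_div_iff hv, h2]
  ring

omit [Fintype σ] in
theorem bump (hD : IsDer x D) (V : Finset F) {B : Set F} (u : F)
    (hu : u ∈ Submodule.span ℂ ((V : Set F) ∪ {1})) :
    ∀ (w : F → F), (∀ a, w a ∈ Q x B) → ∀ C : Submodule ℂ F, C ≤ Q x B → ∀ c : F, c ∈ C →
    ∃ w' : F → F, (∀ a, w' a ∈ Q x B) ∧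
      ∀ i, ∑ a ∈ V, w' a * D i a = ∑ a ∈ V, w a * D i a + c * D i u := by
  classical
  induction hu using Submodule.span_induction with
  | mem u hu =>
    intro w hw C hC c hc
    by_cases huV : u ∈ V
    · refine ⟨Function.update w u (w u + c), ?_, ?_⟩
      · intro a
        by_cases hau : a = u
        · subst hau
          rw [Function.update_self]
          exact (Q x B).add_mem (hw a) (hC hc)
        · rw [Function.update_of_ne hau]
          exact hw a
      · intro i
        rw [← add_sum_erase V _ huV, ← add_sum_erase V (fun a => w a * D i a) huV,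
          Function.update_self]
        have h2 : ∑ a ∈ V.erase u, Function.update w u (w u + c) a * D i a =
            ∑ a ∈ V.erase u, w a * D i a := by
          apply sum_congr rfl
          intro a ha
          rw [Function.update_of_ne (mem_erase.1 ha).1]
        rw [h2]
        ring
    · have hu1 : u = algebraMap ℂ F 1 := by
        rw [map_one]
        rcases hu with hu | hu
        · exact absurd hu huV
        · exact hu
      refine ⟨w, hw, fun i => ?_⟩
      rw [hu1, hD.const, mul_zero, add_zero]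
  | zero =>
    intro w hw C _ c _
    refine ⟨w, hw, fun i => ?_⟩
    have h0 := hD.const i 0
    rw [map_zero] at h0
    rw [h0, mul_zero, add_zero]
  | add u u' _ _ hu hu' =>
    intro w hw C hC c hc
    obtain ⟨w₁, a1, a2⟩ := hu w hw C hC c hc
    obtain ⟨w₂, b1, b2⟩ := hu' w₁ a1 C hC c hc
    refine ⟨w₂, b1, fun i => ?_⟩
    rw [b2, a2, hD.add]
    ring
  | smul α u _ hu =>
    intro w hw C hC c hc
    obtain ⟨w₁, a1, a2⟩ := hu w hw C hC (α • c) (C.smul_mem α hc)
    refine ⟨w₁, a1, fun i => ?_⟩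
    rw [a2, Algebra.smul_def, Algebra.smul_def, hD.mul, hD.const]
    ring

omit [Fintype σ] in
theorem bump' (hD : IsDer x D) (V : Finset F) (w : F → F) {B : Set F}
    (hw : ∀ a, w a ∈ Q x B) (u : F) (hu : u ∈ Submodule.span ℂ ((V : Set F) ∪ {1})) (c : F)
    (hc : c ∈ Q x B) :
    ∃ w' : F → F, (∀ a, w' a ∈ Q x B) ∧
      ∀ i, ∑ a ∈ V, w' a * D i a = ∑ a ∈ V, w a * D i a + c * D i u :=
  bump hD V u hu w hw (Q x B) le_rfl c hc

theorem adj (hD : IsDer x D) {l : List F} (hl : Prog x l) :
    ∀ (M : List F) (w : F → F), Chain x M → {b | b ∈ l} ⊆ {b | b ∈ M} →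
      (∀ a, w a ∈ Q x {b | b ∈ M}) →
      ∃ (M' : List F) (w' : σ → F), Chain x M' ∧ M'.length ≤ M.length + l.length ∧
        (∀ i, w' i ∈ Q x {b | b ∈ M'}) ∧
        ∀ V : Finset F, (∀ b, b ∈ V ↔ b ∈ l ∨ b ∈ Set.range x) →
          ∀ i, ∑ a ∈ V, w a * D i a = w' i := by
  classical
  induction hl with
  | nil =>
    intro M w hM _ hw
    refine ⟨M, fun i => w (x i), hM, by simp, fun i => hw _, ?_⟩
    intro V hV i
    have hV' : V = univ.image x := by
      ext b
      rw [hV, mem_image]
      simp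
    rw [hV', sum_image fun a _ b _ e => hD.inj e]
    simp_rw [hD.var]
    rw [sum_eq_single i]
    · rw [if_pos rfl, mul_one]
    · intro j _ hj
      rw [if_neg hj, mul_zero]
    · intro h
      exact absurd (mem_univ i) h
  | cons a u v l hl hu hv h ih =>
    intro M w hM hlM hw
    have hlM' : {b | b ∈ l} ⊆ {b | b ∈ M} := sub_cons.trans hlM
    by_cases haV : a ∈ l ∨ a ∈ Set.range x
    · obtain ⟨M', w', h1, h2, h3, h4⟩ := ih M w hM hlM' hw
      refine ⟨M', w', h1, h2.trans (by rw [List.length_cons]; omega), h3, ?_⟩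
      intro V hV i
      refine h4 V (fun b => ?_) i
      rw [hV, List.mem_cons]
      constructor
      · rintro ((rfl | h) | h)
        · exact haV
        · exact Or.inl h
        · exact Or.inr h
      · rintro (h | h)
        · exact Or.inl (Or.inr h)
        · exact Or.inr h
    · obtain ⟨V, hV⟩ : ∃ V : Finset F, V = l.toFinset ∪ univ.image x := ⟨_, rfl⟩
      have hmV : ∀ b, b ∈ V ↔ b ∈ l ∨ b ∈ Set.range x := by
        intro b
        rw [hV, mem_union, List.mem_toFinset, mem_image]
        simp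
      have haV' : a ∉ V := fun h => haV ((hmV a).1 h)
      have haM : a ∈ M := hlM (by simp)
      have hcase : ∀ u, u ∈ Av x {b | b ∈ l} → u ∈ Submodule.span ℂ ((V : Set F) ∪ {1}) := by
        intro u hu
        refine Submodule.span_mono ?_ hu
        rintro b (hb | hb | hb)
        · exact Or.inl (mem_coe.2 ((hmV b).2 (Or.inl hb)))
        · exact Or.inl (mem_coe.2 ((hmV b).2 (Or.inr hb)))
        · exact Or.inr hb
      -- it suffices to remove `a`
      have hred : (∃ (A : F) (w₁ : F → F), Chain x (A :: M) ∧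
          (∀ b, w₁ b ∈ Q x {b | b ∈ A :: M}) ∧
          ∀ i, ∑ b ∈ V, w₁ b * D i b = ∑ b ∈ V, w b * D i b + w a * D i a) →
          ∃ (M' : List F) (w' : σ → F), Chain x M' ∧ M'.length ≤ M.length + (a :: l).length ∧
            (∀ i, w' i ∈ Q x {b | b ∈ M'}) ∧
            ∀ V : Finset F, (∀ b, b ∈ V ↔ b ∈ a :: l ∨ b ∈ Set.range x) →
              ∀ i, ∑ b ∈ V, w b * D i b = w' i := by
        rintro ⟨A, w₁, h1, h2, h3⟩
        obtain ⟨M', w', h4, h5, h6, h7⟩ := ih (A :: M) w₁ h1 (hlM'.trans sub_cons) h2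
        refine ⟨M', w', h4, h5.trans (by simp only [List.length_cons]; omega), h6, ?_⟩
        intro V' hV' i
        have e1 : V' = insert a V := by
          ext b
          rw [hV', mem_insert, hmV, List.mem_cons, or_assoc]
        rw [← h7 V hmV i, e1, sum_insert haV', h3]
        ring
      have huM : u ∈ Av x {b | b ∈ M} := Av_mono hlM' hu
      have hvM : v ∈ Av x {b | b ∈ M} := Av_mono hlM' hv
      have hwM : ∀ A b, w b ∈ Q x {b | b ∈ A :: M} := fun A b => Q_mono sub_cons (hw b)
      apply hred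
      rcases h with h | ⟨hv0, h⟩
      · obtain ⟨w₁, a1, a2⟩ := bump' hD V w (hwM (w a)) u (hcase u hu)
          (w a * v) (Q_mul av_head (Av_mono sub_cons hvM))
        obtain ⟨w₂, b1, b2⟩ := bump' hD V w₁ a1 v (hcase v hv)
          (w a * u) (Q_mul av_head (Av_mono sub_cons huM))
        refine ⟨w a, w₂, Chain.cons _ 1 M hM av_one one_ne_zero (by rw [one_mul]; exact hw a),
          b1, fun i => ?_⟩
        rw [b2, a2, h, hD.mul]
        ring
      · obtain ⟨w₁, a1, a2⟩ := bump' hD V w (hwM (w a / v)) u (hcase u hu)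
          (w a / v) (Q_av av_head)
        obtain ⟨w₂, b1, b2⟩ := bump' hD V w₁ a1 v (hcase v hv)
          (-(w a / v * a)) ((Q x _).neg_mem (Q_mul av_head (av_mem (List.mem_cons_of_mem _ haM))))
        refine ⟨w a / v, w₂, Chain.cons _ v M hM hvM hv0 (by
          rw [mul_div_cancel₀ _ hv0]; exact hw a), b1, fun i => ?_⟩
        rw [b2, a2]
        nth_rewrite 5 [h]
        rw [hD.div i u v hv0, ← h]
        ring

/-- **The theorem of Baur and Strassen**: all the partial derivatives of a function with a program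
of length `L` are quadratic in the members of a chain of length `2 L`. -/
theorem gradient (hD : IsDer x D) {l : List F} (hl : Prog x l) {f : F}
    (hf : f ∈ Av x {b | b ∈ l}) : ∃ M : List F, Chain x M ∧ M.length ≤ 2 * l.length ∧
      ∀ i, D i f ∈ Q x {b | b ∈ M} := by
  classical
  obtain ⟨V, hV⟩ : ∃ V : Finset F, V = l.toFinset ∪ univ.image x := ⟨_, rfl⟩
  have hmV : ∀ b, b ∈ V ↔ b ∈ l ∨ b ∈ Set.range x := by
    intro b
    rw [hV, mem_union, List.mem_toFinset, mem_image]
    simp
  have hfV : f ∈ Submodule.span ℂ ((V : Set F) ∪ {1}) := by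
    refine Submodule.span_mono ?_ hf
    rintro b (hb | hb | hb)
    · exact Or.inl (mem_coe.2 ((hmV b).2 (Or.inl hb)))
    · exact Or.inl (mem_coe.2 ((hmV b).2 (Or.inr hb)))
    · exact Or.inr hb
  obtain ⟨w, a1, a2⟩ := bump' (B := {b | b ∈ l}) hD V (fun _ => 0)
    (fun a => (Q x _).zero_mem) f hfV 1 (Q_av av_one)
  obtain ⟨M', w', h1, h2, h3, h4⟩ := adj hD hl l w hl.chain subset_rfl a1
  refine ⟨M', h1, h2.trans (by omega), fun i => ?_⟩
  have h5 := h4 V hmV i
  rw [a2 i] at h5
  simp only [zero_mul, sum_const_zero, zero_add, one_mul] at h5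
  rw [h5]
  exact h3 i

end

section

open Pool.Agent.L5helper60.LA

theorem isDer_dv {σ : Type} [DecidableEq σ] : IsDer (xv ℂ : σ → RF ℂ σ) dv :=
  ⟨dv_add, dv_mul, dv_const, dv_xv⟩

theorem aeval_xv {σ : Type} (f : MvPolynomial σ ℂ) :
    aeval (xv ℂ : σ → RF ℂ σ) f = algebraMap (MvPolynomial σ ℂ) (RF ℂ σ) f := by
  induction f using MvPolynomial.induction_on with
  | C a =>
    rw [aeval_C, IsScalarTower.algebraMap_apply ℂ (MvPolynomial σ ℂ) (RF ℂ σ)]
    rfl
  | add f g hf hg => rw [map_add, map_add, hf, hg]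
  | mul_X f i hf =>
    rw [map_mul, map_mul, hf, aeval_X]
    rfl

/-- A polynomial with a program of length `L` has at most `2 ^ (k + 2 L)` nondegenerate critical
points relative to each linear form. -/
theorem critical_bound {σ : Type} [Fintype σ] [DecidableEq σ] {l : List (RF ℂ σ)}
    (hl : Prog (xv ℂ) l) (f : MvPolynomial σ ℂ)
    (hf : algebraMap (MvPolynomial σ ℂ) (RF ℂ σ) f ∈ Av (xv ℂ) {b | b ∈ l}) (c : σ → ℂ)
    (S : Finset (σ → ℂ)) (hS : ∀ p ∈ S, ∀ i, eval p (pderiv i f) = c i)
    (hnd : ∀ p ∈ S, ∀ z : σ → ℂ,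
      (∀ j, ∑ i, z i * eval p (pderiv i (pderiv j f)) = 0) → z = 0) :
    S.card ≤ 2 ^ (Fintype.card σ + 2 * l.length) := by
  obtain ⟨M, hM1, hM2, hM3⟩ := gradient isDer_dv hl hf
  refine (degree_bound (x := (xv ℂ : σ → RF ℂ σ)) ?_ X (fun j => (totalDegree_X j).le)
    (fun j => aeval_X _ j) hM1 (fun i => pderiv i f - C (c i)) ?_ S
    ?_ ?_).trans (Nat.pow_le_pow_right (by norm_num) (by omega))
  · intro a b h
    rw [aeval_xv, aeval_xv] at h
    exact IsFractionRing.injective (MvPolynomial σ ℂ) (RF ℂ σ) h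
  · intro i
    rw [map_sub, aeval_xv, ← dv_algebraMap, aeval_C]
    have h1 : algebraMap ℂ (RF ℂ σ) (c i) ∈ Q (xv ℂ : σ → RF ℂ σ) {b | b ∈ M} :=
      Q_av (av_const _)
    exact Submodule.sub_mem _ (hM3 i) h1
  · intro p hp i
    rw [map_sub, hS p hp, eval_C, sub_self]
  · intro p hp z hz
    apply hnd p hp
    intro j
    rw [← hz j]
    refine sum_congr rfl fun i _ => ?_
    rw [map_sub, pderiv_C, sub_zero]

end

end Pool.Agent.L5helper88.CP
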