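import Pool.Agent.L5helper88.CP.NumLog
import Pool.Agent.L5helper88.CP.Field
import Pool.Agent.L5helper11.CL.Prog
import Pool.Agent.L5helper59.NC.MainSize
import Pool.Agent.L5helper79.NC.Lim
import Pool.Agent.L5helper96.Cub.Arith3

/-!
# The bound `m ^ 2 log m` for programs, from the permanents `F_t`
-/

set_option autoImplicit false

open Finset MvPolynomial

namespace Pool.Agent.L5helper88.CP

open L5helper59.DC L5lead.NC L5helper96.NC L5helper96.Cub L5helper59.NC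
  Pool.Agent.L5helper60.LA Pool.Agent.L5helper88.Model

/-- **The bound for programs**, if the polynomials `F_t` are permanents of size `size3`. -/
theorem program_log (hC3 : PermSizeStmt size3) (m : ℕ) (hm : 2 ^ 27 ≤ m)
    (Pk : ℕ → MvPolynomial (Fin m × Fin m) ℂ) (D : ℕ) (hD : ∀ k, (Pk k).totalDegree ≤ D)
    (hP : CT Pk (permPoly m)) (s : ℕ)
    (hs : ∀ k, ∃ l : List (RF ℂ (Fin m × Fin m)), Prog (xv ℂ) l ∧
        l.length ≤ s ∧ algebraMap (MvPolynomial (Fin m × Fin m) ℂ) (RF ℂ (Fin m × Fin m)) (Pk k) ∈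
          Av (xv ℂ) {b | b ∈ l}) :
    (m : ℝ) ^ 2 * Real.logb 2 m / 2 ^ 21 ≤ s := by
  refine numerics_log m s hm fun L hL => ?_
  have hN : 2 ^ (L + 1) = 2 * 2 ^ L := by rw [pow_succ]; ring
  have hq : 1 ≤ 2 ^ L := Nat.one_le_two_pow
  have : NeZero (2 ^ L) := ⟨by omega⟩
  have hsize : size3 (L + 1) (2 ^ L + 1) ≤ m :=
    (size3_le (L + 1) (2 ^ L) hN (by omega)).trans hL
  have key := L5helper11.CL.assembly_prog (L := Fin (2 ^ (L + 1))) (V := Fin (2 ^ (L + 1)))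
    (2 ^ L) (by rw [Fintype.card_fin, hN]) (size3 (L + 1) (2 ^ L + 1)) m hsize
    (fun k => F2t (2 ^ (L + 1)) (2 ^ L + 1) (1 / ((k : ℂ) + 1))) (2 ^ L + 1 + 1)
    (fun k => L5helper79.NC.F2t_degree _ _ _)
    (by
      intro d
      have h1 := L5helper79.NC.F2t_tendsto (2 ^ (L + 1)) (2 ^ L + 1) d
      rw [L5helper79.NC.F2t_zero (2 ^ (L + 1)) (2 ^ L + 1)] at h1
      exact h1)
    (by
      intro k
      obtain ⟨A, K, hK, hA, hp⟩ := hC3 (2 ^ L + 1) (L + 1) _ (by omega) (1 / ((k : ℝ) + 1))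
        (by positivity) rfl
      refine ⟨A, K, hK, hA, ?_⟩
      rw [hp]
      push_cast
      rfl)
    Pk D hD hP s hs
  rw [Fintype.card_fin, hN] at key
  exact key

/-- **The bound for computations and circuits**, if the polynomials `F_t` are permanents of size
`size3`. -/
theorem circuits_log (hC3 : PermSizeStmt size3) (m : ℕ) (hm : 2 ^ 27 ≤ m) :
    (∀ (K : Type) [Field K] [CharZero K] (L : ℕ), Computed (perm K m) L →
        (m : ℝ) ^ 2 * Real.logb 2 m / 2 ^ 21 ≤ L) ∧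
      (∀ L : ℕ, Approximated (perm ℂ m) L → (m : ℝ) ^ 2 * Real.logb 2 m / 2 ^ 21 ≤ L) ∧
      ∀ (K : Type) [Field K] [CharZero K] (l : List (RatFun K (Fin m × Fin m))) (s : ℕ),
        Circuit l s → Operand l (toRat (perm K m)) →
          (m : ℝ) ^ 2 * Real.logb 2 m / 2 ^ 21 ≤ s := by
  have key : ∀ L : ℕ, Approximated (perm ℂ m) L →
      (m : ℝ) ^ 2 * Real.logb 2 m / 2 ^ 21 ≤ L := by
    rintro L ⟨P, D, h1, h2, h3⟩
    refine program_log hC3 m hm P D h2 h3 L fun k => ?_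
    obtain ⟨l, h4, h5, h6⟩ := h1 k
    exact ⟨l, h4.prog, h5, h6⟩
  have key2 : ∀ (K : Type) [Field K] [CharZero K] (L : ℕ), Computed (perm K m) L →
      (m : ℝ) ^ 2 * Real.logb 2 m / 2 ^ 21 ≤ L := fun K _ _ L hL =>
    key L ⟨fun _ => perm ℂ m, (perm ℂ m).totalDegree, fun _ => computed_complex hL,
      fun _ => le_rfl, fun _ => tendsto_const_nhds⟩
  refine ⟨key2, key, fun K _ _ l s hl hperm => ?_⟩
  obtain ⟨l', h1, h2, h3⟩ := hl.computation
  exact key2 K s ⟨l', h1, h2.le, h3 _ hperm⟩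

end Pool.Agent.L5helper88.CP
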