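import Mathlib

/-!
# Computations and circuits
-/

set_option autoImplicit false

open MvPolynomial

namespace Pool.Agent.L5helper88.Model

/-- The rational functions in the variables `σ` with coefficients in `K`. -/
noncomputable abbrev RatFun (K : Type) [Field K] (σ : Type) := FractionRing (MvPolynomial σ K)

/-- A polynomial as a rational function. -/
noncomputable def toRat {K : Type} [Field K] {σ : Type} (f : MvPolynomial σ K) : RatFun K σ :=
  algebraMap (MvPolynomial σ K) (RatFun K σ) f

/-- The linear combinations, with coefficients in `K`, of the members of the list `l`, of the
variables and of `1`. -/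
noncomputable def Lin {K : Type} [Field K] {σ : Type} (l : List (RatFun K σ)) :
    Submodule K (RatFun K σ) :=
  Submodule.span K ({a | a ∈ l} ∪ (Set.range (fun i : σ => toRat (X i)) ∪ {1}))

/-- Computations in which linear operations are free: the list contains the results of the
multiplications and divisions, the last one first. The two operands are linear combinations of
earlier results, variables and `1`. -/
inductive Computation {K : Type} [Field K] {σ : Type} : List (RatFun K σ) → Prop
  | nil : Computation []
  | mul (l : List (RatFun K σ)) (u v : RatFun K σ) : Computation l → u ∈ Lin l → v ∈ Lin l →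
      Computation ((u * v) :: l)
  | div (l : List (RatFun K σ)) (u v : RatFun K σ) : Computation l → u ∈ Lin l → v ∈ Lin l →
      v ≠ 0 → Computation ((u / v) :: l)

/-- The polynomial `f` can be computed with at most `L` multiplications and divisions. -/
def Computed {K : Type} [Field K] {σ : Type} (f : MvPolynomial σ K) (L : ℕ) : Prop :=
  ∃ l : List (RatFun K σ), Computation l ∧ l.length ≤ L ∧ toRat f ∈ Lin l

/-- The complex polynomial `f` is approximated by polynomials which can be computed with at most
`L` multiplications and divisions: they have bounded degree and their coefficients converge to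
the coefficients of `f`. -/
def Approximated {σ : Type} (f : MvPolynomial σ ℂ) (L : ℕ) : Prop :=
  ∃ (P : ℕ → MvPolynomial σ ℂ) (D : ℕ), (∀ k, Computed (P k) L) ∧
    (∀ k, (P k).totalDegree ≤ D) ∧
    ∀ d, Filter.Tendsto (fun k => coeff d (P k)) Filter.atTop (nhds (coeff d f))

/-- The operands of a gate of an arithmetic circuit: the results of the earlier gates, the
variables and the constants. -/
def Operand {K : Type} [Field K] {σ : Type} (l : List (RatFun K σ)) (u : RatFun K σ) : Prop :=
  u ∈ l ∨ (∃ i, u = toRat (X i)) ∨ ∃ c : K, u = toRat (C c)

/-- Arithmetic circuits with divisions, in topological order: the list contains the results of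
all gates, the last one first, and `s` is the number of gates for multiplications and divisions.
All gates have fan-in two. -/
inductive Circuit {K : Type} [Field K] {σ : Type} : List (RatFun K σ) → ℕ → Prop
  | nil : Circuit [] 0
  | add (l : List (RatFun K σ)) (s : ℕ) (u v : RatFun K σ) : Circuit l s → Operand l u →
      Operand l v → Circuit ((u + v) :: l) s
  | mul (l : List (RatFun K σ)) (s : ℕ) (u v : RatFun K σ) : Circuit l s → Operand l u →
      Operand l v → Circuit ((u * v) :: l) (s + 1)
  | div (l : List (RatFun K σ)) (s : ℕ) (u v : RatFun K σ) : Circuit l s → Operand l u →
      Operand l v → v ≠ 0 → Circuit ((u / v) :: l) (s + 1)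

/-- The permanent of the `m × m` matrix of variables. -/
noncomputable def perm (K : Type) [Field K] (m : ℕ) : MvPolynomial (Fin m × Fin m) K :=
  Matrix.permanent (Matrix.of fun i j => X (i, j))

end Pool.Agent.L5helper88.Model
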