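import Mathlib

/-!
# The numerical part of the lower bound for programs
-/

set_option autoImplicit false

open Finset Filter

namespace Pool.Agent.L5helper88.CP

theorem log_factorial_ge (n : ℕ) : (n : ℝ) * Real.log n - n ≤ Real.log (n.factorial) := by
  rcases Nat.eq_zero_or_pos n with rfl | hn
  · simp
  have hn' : (0 : ℝ) < n := by exact_mod_cast hn
  have hf : (0 : ℝ) < (n.factorial : ℝ) := by exact_mod_cast n.factorial_pos
  have h1 := Real.pow_div_factorial_le_exp (n : ℝ) hn'.le n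
  have h2 := Real.log_le_log (by positivity) h1
  rw [Real.log_exp, Real.log_div (by positivity) hf.ne', Real.log_pow] at h2
  linarith

theorem log_factorial_le (n : ℕ) : Real.log (n.factorial) ≤ (n : ℝ) * Real.log n := by
  rcases Nat.eq_zero_or_pos n with rfl | hn
  · simp
  have hf : (0 : ℝ) < (n.factorial : ℝ) := by exact_mod_cast n.factorial_pos
  rw [← Real.log_pow]
  refine Real.log_le_log hf ?_
  exact_mod_cast n.factorial_le_pow

theorem size_ge (q n κ L : ℕ) (ε : ℝ)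
    (h : (((q.factorial) ^ 2).factorial) ^ (n * κ) ≤
      2 ^ (n * (q.factorial) ^ 2 * (κ * (2 * q)) + 2 * L))
    (hε : 2 * (q : ℝ) + 1 + 2 * q * Real.log 2 ≤ ε * (2 * q * Real.log q)) :
    (1 - ε) * Real.log q * (((n : ℝ) * (q.factorial) ^ 2) * (κ * (2 * q))) ≤
      2 * Real.log 2 * L := by
  set N : ℕ := (q.factorial) ^ 2 with hN
  have hN0 : 0 < N := by positivity
  have hNr : (N : ℝ) = (q.factorial : ℝ) ^ 2 := by rw [hN]; push_cast; ring
  have hNf : (0 : ℝ) < (N.factorial : ℝ) := by exact_mod_cast N.factorial_pos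
  have h1 : ((N.factorial : ℝ)) ^ (n * κ) ≤ 2 ^ (n * N * (κ * (2 * q)) + 2 * L) := by
    exact_mod_cast h
  have h2 := Real.log_le_log (by positivity) h1
  rw [Real.log_pow, Real.log_pow] at h2
  push_cast at h2
  have h3 := log_factorial_ge N
  have h4 := log_factorial_ge q
  have h5 : Real.log N = 2 * Real.log (q.factorial) := by
    rw [hNr, Real.log_pow]
    norm_num
  have hNr0 : (0 : ℝ) < N := by exact_mod_cast hN0
  have h6 : (N : ℝ) * (2 * q * Real.log q - 2 * q - 1) ≤ Real.log (N.factorial) := by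
    have : (N : ℝ) * (2 * q * Real.log q - 2 * q - 1) ≤ N * (Real.log N - 1) := by
      refine mul_le_mul_of_nonneg_left ?_ hNr0.le
      rw [h5]
      linarith
    linarith
  have hnk : (0 : ℝ) ≤ (n : ℝ) * κ := by positivity
  have h7 := mul_le_mul_of_nonneg_left h6 hnk
  have h8 : (n : ℝ) * κ * N * ((1 - ε) * (2 * q * Real.log q)) ≤
      n * κ * N * (2 * q * Real.log q - 2 * q - 1 - 2 * q * Real.log 2) := by
    refine mul_le_mul_of_nonneg_left ?_ (by positivity)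
    linarith
  rw [← hNr]
  nlinarith [h7, h8, h2]

theorem exists_n (B : Finset ℕ) (K n0 : ℕ) (hB : B.card ≤ K) :
    ∃ n, n ∉ B ∧ n0 ≤ n ∧ n ≤ n0 + K := by
  have h1 : B.card < (Icc n0 (n0 + K)).card := by
    rw [Nat.card_Icc]
    omega
  obtain ⟨n, hn, hnB⟩ := exists_mem_notMem_of_card_lt_card h1
  rw [mem_Icc] at hn
  exact ⟨n, hnB, hn.1, hn.2⟩

theorem exists_eps (c : ℝ) (hc : c < 1 / (8 * Real.log 2)) :
    ∃ ε : ℝ, 0 < ε ∧ ε < 1 ∧ c ≤ (1 - ε) ^ 3 / (1 + ε) / (8 * Real.log 2) := by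
  have hlog : 0 < Real.log 2 := Real.log_pos (by norm_num)
  have h1 : Tendsto (fun ε : ℝ => (1 - ε) ^ 3 / (1 + ε) / (8 * Real.log 2)) (nhds 0)
      (nhds ((1 - 0) ^ 3 / (1 + 0) / (8 * Real.log 2))) := by
    refine Tendsto.div_const (Tendsto.div ?_ ?_ (by norm_num)) _
    · exact (tendsto_const_nhds.sub tendsto_id).pow 3
    · exact tendsto_const_nhds.add tendsto_id
  have h2 : ∀ᶠ ε : ℝ in nhds 0, c < (1 - ε) ^ 3 / (1 + ε) / (8 * Real.log 2) := by
    refine h1.eventually_const_lt ?_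
    simpa using hc
  have h3 : ∀ᶠ ε : ℝ in nhds 0, ε < 1 := eventually_lt_nhds (by norm_num)
  have h4 : ∀ᶠ ε : ℝ in nhdsWithin 0 (Set.Ioi 0), c < (1 - ε) ^ 3 / (1 + ε) / (8 * Real.log 2) ∧
      ε < 1 ∧ 0 < ε := by
    filter_upwards [h2.filter_mono nhdsWithin_le_nhds, h3.filter_mono nhdsWithin_le_nhds,
      self_mem_nhdsWithin] with ε h5 h6 h7
    exact ⟨h5, h6, h7⟩
  obtain ⟨ε, h5, h6, h7⟩ := h4.exists
  exact ⟨ε, h7, h6, h5.le⟩

theorem eventually_a (ε : ℝ) (hε : 0 < ε) :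
    ∀ᶠ q : ℕ in atTop, 6 * ((q : ℝ) + 1) * Real.log ((q : ℝ) + 1) ≤ (q : ℝ) ^ (1 + ε) := by
  have h1 : Tendsto (fun q : ℕ => (q : ℝ) + 1) atTop atTop :=
    tendsto_atTop_add_const_right _ _ tendsto_natCast_atTop_atTop
  have h2 := ((isLittleO_log_rpow_atTop hε).comp_tendsto h1)
  have h3 := h2.bound (c := 1 / (12 * 2 ^ ε)) (by positivity)
  filter_upwards [h3, eventually_ge_atTop 1] with q hq hq1
  have hq1' : (1 : ℝ) ≤ q := by exact_mod_cast hq1
  simp only [Function.comp] at hq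
  rw [Real.norm_of_nonneg (Real.log_nonneg (by linarith)),
    Real.norm_of_nonneg (by positivity)] at hq
  have h4 : ((q : ℝ) + 1) ^ ε ≤ 2 ^ ε * (q : ℝ) ^ ε := by
    rw [← Real.mul_rpow (by norm_num) (by positivity)]
    exact Real.rpow_le_rpow (by positivity) (by linarith) hε.le
  have h5 : Real.log ((q : ℝ) + 1) ≤ 1 / 12 * (q : ℝ) ^ ε := by
    refine hq.trans ?_
    have h6 : (0 : ℝ) < 2 ^ ε := by positivity
    calc 1 / (12 * 2 ^ ε) * ((q : ℝ) + 1) ^ ε ≤ 1 / (12 * 2 ^ ε) * (2 ^ ε * (q : ℝ) ^ ε) :=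
          mul_le_mul_of_nonneg_left h4 (by positivity)
      _ = 1 / 12 * (q : ℝ) ^ ε := by field_simp
  rw [Real.rpow_add (by linarith), Real.rpow_one]
  have h7 : (0 : ℝ) ≤ (q : ℝ) ^ ε := by positivity
  calc 6 * ((q : ℝ) + 1) * Real.log ((q : ℝ) + 1) ≤ 6 * ((q : ℝ) + 1) * (1 / 12 * (q : ℝ) ^ ε) :=
        mul_le_mul_of_nonneg_left h5 (by positivity)
    _ ≤ q * (q : ℝ) ^ ε := by nlinarith

theorem eventually_b (ε : ℝ) (hε : 0 < ε) :
    ∀ᶠ q : ℕ in atTop, 2 * (q : ℝ) + 1 + 2 * q * Real.log 2 ≤ ε * (2 * q * Real.log q) := by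
  have h1 : Tendsto (fun q : ℕ => Real.log (q : ℝ)) atTop atTop :=
    Real.tendsto_log_atTop.comp tendsto_natCast_atTop_atTop
  filter_upwards [h1.eventually_ge_atTop (5 / (2 * ε)), eventually_ge_atTop 1] with q hq hq1
  have hq1' : (1 : ℝ) ≤ q := by exact_mod_cast hq1
  have h2 : Real.log 2 ≤ 1 := by
    have := Real.log_two_lt_d9
    linarith
  have h3 : 5 ≤ 2 * ε * Real.log q := by
    rw [div_le_iff₀ (by positivity)] at hq
    linarith
  nlinarith

set_option maxHeartbeats 1000000 in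
/-- the choice of the parameters -/
theorem numerics (c : ℝ) (hc : c < 1 / (8 * Real.log 2)) :
    ∃ m0 : ℕ, ∀ m : ℕ, m0 ≤ m → ∃ q : ℕ, 2 ≤ q ∧
      ∀ B : Finset ℕ, B.card ≤ (q.factorial) ^ 2 * (2 * q) →
      ∃ n κ : ℕ, 2 ≤ n ∧ n ∉ B ∧ 1 ≤ κ ∧ n * (q.factorial) ^ 2 + κ * (2 * q) ≤ m + (q + 1) ∧
        ∀ L : ℕ, (((q.factorial) ^ 2).factorial) ^ (n * κ) ≤
          2 ^ (n * (q.factorial) ^ 2 * (κ * (2 * q)) + 2 * L) →
          c * (m : ℝ) ^ 2 * Real.log (Real.log m) ≤ L := by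
  obtain ⟨ε, hε0, hε1, hcε⟩ := exists_eps c hc
  have hlog2 : 0 < Real.log 2 := Real.log_pos (by norm_num)
  obtain ⟨Q, hQ⟩ := eventually_atTop.1 ((eventually_a ε hε0).and ((eventually_b ε hε0).and
    ((tendsto_natCast_atTop_atTop (R := ℝ)).eventually_ge_atTop (12 / ε))))
  set Q' := max Q 3 with hQ'
  refine ⟨(Q'.factorial) ^ 6, fun m hm => ?_⟩
  have hex : ∃ k : ℕ, m < (k.factorial) ^ 6 := by
    refine ⟨m + 1, ?_⟩
    have h1 : m + 1 ≤ (m + 1).factorial := Nat.self_le_factorial _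
    have h2 : (m + 1).factorial ≤ ((m + 1).factorial) ^ 6 := Nat.le_self_pow (by norm_num) _
    omega
  classical
  set k := Nat.find hex with hk
  have hk1 : m < (k.factorial) ^ 6 := Nat.find_spec hex
  have hk2 : Q' < k := by
    by_contra hlt
    push Not at hlt
    have h3 : (k.factorial) ^ 6 ≤ (Q'.factorial) ^ 6 :=
      Nat.pow_le_pow_left (Nat.factorial_le hlt) 6
    omega
  obtain ⟨q, hkq⟩ : ∃ q, k = q + 1 := ⟨k - 1, by omega⟩
  have hqQ : Q' ≤ q := by omega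
  have hq3 : 3 ≤ q := (le_max_right Q 3).trans hqQ
  have hmq : (q.factorial) ^ 6 ≤ m := by
    have := Nat.find_min hex (m := q) (by omega)
    omega
  rw [hkq] at hk1
  obtain ⟨ha, hb, hce⟩ := hQ q ((le_max_left Q 3).trans hqQ)
  refine ⟨q, by omega, fun B hB => ?_⟩
  set N : ℕ := (q.factorial) ^ 2 with hN
  have hN0 : 0 < N := by positivity
  have hqf : q ≤ q.factorial := Nat.self_le_factorial q
  have hqN : q * q ≤ N := by
    rw [hN, sq]
    exact Nat.mul_le_mul hqf hqf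
  have hN3 : N ^ 3 ≤ m := by
    have : N ^ 3 = (q.factorial) ^ 6 := by rw [hN]; ring
    omega
  -- real versions
  have hq3' : (3 : ℝ) ≤ q := by exact_mod_cast hq3
  have hNr : (q : ℝ) * q ≤ N := by exact_mod_cast hqN
  have hN3r : (N : ℝ) ^ 3 ≤ m := by exact_mod_cast hN3
  have hNr9 : (9 : ℝ) ≤ N := by nlinarith
  have hNm : (N : ℝ) ≤ m := by
    have h1 : N ≤ N ^ 3 := Nat.le_self_pow (by norm_num) _
    exact_mod_cast h1.trans hN3
  have hqε : 12 ≤ ε * q := by
    rw [div_le_iff₀ hε0] at hce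
    linarith
  -- `6 q ≤ (ε / 2) N`
  have h6q : 12 * (q : ℝ) ≤ ε * N := by nlinarith
  have hm0 : (0 : ℝ) < m := by
    have : (0 : ℝ) < (N : ℝ) ^ 3 := by positivity
    linarith
  -- `N + 2 q N^2 ≤ ε m / 4`
  have hqN1 : (1 : ℝ) ≤ q * N := by nlinarith
  have h7 : (N : ℝ) * (3 + 2 * q * N) ≤ ε * m / 2 := by
    have h71 : 3 + 2 * (q : ℝ) * N ≤ 6 * q * N := by nlinarith
    have h72 : (N : ℝ) * (6 * q * N) ≤ ε * N ^ 3 / 2 := by
      have := mul_le_mul_of_nonneg_left h6q (show (0 : ℝ) ≤ (N : ℝ) * N / 2 by positivity)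
      nlinarith
    have h73 : ε * (N : ℝ) ^ 3 / 2 ≤ ε * m / 2 := by
      have := mul_le_mul_of_nonneg_left hN3r hε0.le
      linarith
    have h74 := mul_le_mul_of_nonneg_left h71 (show (0 : ℝ) ≤ N by positivity)
    linarith
  set n0 : ℕ := m / (2 * N) with hn0
  have hn01 : n0 * (2 * N) ≤ m := Nat.div_mul_le_self _ _
  have hn02 : m < (n0 + 1) * (2 * N) := by
    have := Nat.lt_div_mul_add (a := m) (b := 2 * N) (by positivity)
    rw [← hn0] at this
    linarith
  have hn02r : (m : ℝ) < ((n0 : ℝ) + 1) * (2 * N) := by exact_mod_cast hn02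
  set K : ℕ := N * (2 * q) with hK
  have hKr : (K : ℝ) = N * (2 * q) := by rw [hK]; push_cast; ring
  have hKn : K + 2 ≤ n0 := by
    have h8 : ((K : ℝ) + 2) < (n0 : ℝ) + 1 := by
      rw [hKr]
      have h9 : ((N : ℝ) * (2 * q) + 2) * (2 * N) < ((n0 : ℝ) + 1) * (2 * N) := by
        have h10 : ε * m ≤ m := by nlinarith
        nlinarith
      exact lt_of_mul_lt_mul_right h9 (by positivity)
    have h9 : K + 2 < n0 + 1 := by exact_mod_cast h8
    omega
  obtain ⟨n, hnB, hn1, hn2⟩ := exists_n B K (n0 - K) hB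
  have hn1' : n0 ≤ n + K := by omega
  have hn2' : n ≤ n0 := by omega
  set κ : ℕ := m / (4 * q) with hκ
  have hκ1 : κ * (4 * q) ≤ m := Nat.div_mul_le_self _ _
  have hκ2 : m < (κ + 1) * (4 * q) := by
    have := Nat.lt_div_mul_add (a := m) (b := 4 * q) (by positivity)
    rw [← hκ] at this
    linarith
  have hκ2r : (m : ℝ) < ((κ : ℝ) + 1) * (4 * q) := by exact_mod_cast hκ2
  have hn1r : (n0 : ℝ) ≤ n + K := by exact_mod_cast hn1'
  -- lower bounds for the two sides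
  have hA : (1 - ε) * (m / 2) ≤ (n : ℝ) * N := by
    have h8 : ((n0 : ℝ) + 1) * N ≤ (n + K + 1) * N :=
      mul_le_mul_of_nonneg_right (by linarith) (by positivity)
    rw [hKr] at h8
    nlinarith
  have h4q : 4 * (q : ℝ) ≤ ε * m / 2 := by
    have h8 : 8 * (q : ℝ) ≤ ε * N := by linarith
    have h9 := mul_le_mul_of_nonneg_left hNm hε0.le
    linarith
  have hBB : (1 - ε) * (m / 2) ≤ (κ : ℝ) * (2 * q) := by nlinarith
  have hκ0 : 1 ≤ κ := by
    rcases Nat.eq_zero_or_pos κ with h0 | h0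
    · rw [h0] at hκ2r
      push_cast at hκ2r
      nlinarith
    · exact h0
  refine ⟨n, κ, by omega, hnB, hκ0, ?_, fun L hL => ?_⟩
  · have h8 : n * N ≤ n0 * N := Nat.mul_le_mul_right _ hn2'
    have h9 : n0 * (2 * N) = 2 * (n0 * N) := by ring
    have h10 : κ * (4 * q) = 2 * (κ * (2 * q)) := by ring
    omega
  · have h8 := size_ge q n κ L ε hL hb
    have hNN : ((q.factorial : ℝ)) ^ 2 = N := by rw [hN]; push_cast; ring
    rw [hNN] at h8
    -- the logarithm
    have hm1 : (m : ℝ) ≤ (((q + 1).factorial : ℕ) : ℝ) ^ 6 := by exact_mod_cast hk1.le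
    have hlm : Real.log m ≤ (q : ℝ) ^ (1 + ε) := by
      have h9 := Real.log_le_log hm0 hm1
      rw [Real.log_pow] at h9
      have h10 := log_factorial_le (q + 1)
      push_cast at h9 h10
      linarith
    have hlm1 : 1 ≤ Real.log m := by
      rw [Real.le_log_iff_exp_le hm0]
      have h9 := Real.exp_one_lt_d9
      have h10 : (9 : ℝ) ≤ m := hNr9.trans hNm
      linarith
    have hll : Real.log (Real.log m) ≤ (1 + ε) * Real.log q := by
      have h9 := Real.log_le_log (by linarith) hlm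
      rwa [Real.log_rpow (by linarith)] at h9
    have hll0 : 0 ≤ Real.log (Real.log m) := Real.log_nonneg hlm1
    have hlq0 : 0 ≤ Real.log q := Real.log_nonneg (by linarith)
    have hA0 : 0 ≤ (1 - ε) * ((m : ℝ) / 2) := by
      have : 0 < 1 - ε := by linarith
      positivity
    have h11 : ((1 - ε) * ((m : ℝ) / 2)) * ((1 - ε) * (m / 2)) ≤ (n * N) * (κ * (2 * q)) :=
      mul_le_mul hA hBB hA0 (by positivity)
    have h12 : (1 - ε) * Real.log q * (((1 - ε) * ((m : ℝ) / 2)) * ((1 - ε) * (m / 2))) ≤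
        2 * Real.log 2 * L := by
      refine le_trans (mul_le_mul_of_nonneg_left h11 ?_) h8
      have : 0 < 1 - ε := by linarith
      positivity
    have h13 : c * (m : ℝ) ^ 2 * Real.log (Real.log m) ≤
        (1 - ε) ^ 3 / (1 + ε) / (8 * Real.log 2) * (m : ℝ) ^ 2 * Real.log (Real.log m) := by
      have : (0 : ℝ) ≤ (m : ℝ) ^ 2 * Real.log (Real.log m) := by positivity
      have := mul_le_mul_of_nonneg_right hcε this
      linarith
    have h14 : (1 - ε) ^ 3 / (1 + ε) / (8 * Real.log 2) * (m : ℝ) ^ 2 * Real.log (Real.log m) ≤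
        (1 - ε) ^ 3 / (1 + ε) / (8 * Real.log 2) * (m : ℝ) ^ 2 * ((1 + ε) * Real.log q) := by
      refine mul_le_mul_of_nonneg_left hll ?_
      have : 0 < 1 - ε := by linarith
      positivity
    have h15 : (1 - ε) ^ 3 / (1 + ε) / (8 * Real.log 2) * (m : ℝ) ^ 2 * ((1 + ε) * Real.log q) =
        (1 - ε) * Real.log q * (((1 - ε) * ((m : ℝ) / 2)) * ((1 - ε) * (m / 2))) /
          (2 * Real.log 2) := by
      have h16 : (1 + ε) ≠ 0 := by linarith
      field_simp
      ring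
    rw [h15] at h14
    have h17 : (1 - ε) * Real.log q * (((1 - ε) * ((m : ℝ) / 2)) * ((1 - ε) * (m / 2))) /
          (2 * Real.log 2) ≤ L := by
      rw [div_le_iff₀ (by positivity)]
      linarith
    linarith

end Pool.Agent.L5helper88.CP
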