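import Pool.Agent.L5helper88.CP.Num

/-!
# The numerical part of the bound `m ^ 2 log m` for programs
-/

set_option autoImplicit false

open Finset

namespace Pool.Agent.L5helper88.CP

/-- what the inequality for the number of critical points gives -/
theorem size_ge_log (q s : ℕ)
    (h : ((q.factorial) ^ 2) ^ (2 * q) ≤ 2 ^ (2 * q * (2 * q) + 2 * s)) :
    2 * (q : ℝ) ^ 2 * (Real.log q - 1 - Real.log 2) ≤ Real.log 2 * s := by
  have h0 : (0 : ℝ) < (q.factorial : ℝ) := by exact_mod_cast q.factorial_pos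
  have h1 : (((q.factorial : ℝ)) ^ 2) ^ (2 * q) ≤ 2 ^ (2 * q * (2 * q) + 2 * s) := by
    exact_mod_cast h
  have h2 := Real.log_le_log (by positivity) h1
  rw [Real.log_pow, Real.log_pow, Real.log_pow] at h2
  push_cast at h2
  have h3 := log_factorial_ge q
  have h4 : (0 : ℝ) ≤ 2 * (q : ℝ) * 2 := by positivity
  have h5 := mul_le_mul_of_nonneg_left h3 h4
  nlinarith [h5, h2]

/-- the level for a given size -/
theorem exists_level (c m : ℕ) (hc : 1 ≤ c) (hm : 2 * c ≤ m) :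
    ∃ L : ℕ, c * 2 ^ (L + 1) ≤ m ∧ m < c * 2 ^ (L + 2) := by
  have hex : ∃ L : ℕ, m < c * 2 ^ (L + 1) := by
    refine ⟨m, ?_⟩
    have h1 : m + 1 < 2 ^ (m + 1) := Nat.lt_two_pow_self
    calc m < 2 ^ (m + 1) := by omega
      _ = 1 * 2 ^ (m + 1) := by ring
      _ ≤ c * 2 ^ (m + 1) := Nat.mul_le_mul_right _ hc
  classical
  obtain ⟨L, hL⟩ : ∃ L, L = Nat.find hex := ⟨_, rfl⟩
  have h1 : m < c * 2 ^ (L + 1) := by rw [hL]; exact Nat.find_spec hex
  have hL1 : 1 ≤ L := by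
    by_contra hlt
    have : L = 0 := by omega
    rw [this] at h1
    norm_num at h1
    omega
  have h2 : c * 2 ^ L ≤ m := by
    have := Nat.find_min hex (m := L - 1) (by omega)
    rw [show L - 1 + 1 = L by omega] at this
    omega
  refine ⟨L - 1, ?_, ?_⟩
  · rwa [show L - 1 + 1 = L by omega]
  · rwa [show L - 1 + 2 = L + 1 by omega]

/-- the choice of the parameters -/
theorem numerics_log (m s : ℕ) (hm : 2 ^ 27 ≤ m)
    (h : ∀ L : ℕ, 364 * 2 ^ (L + 1) ≤ m →
      (((2 ^ L).factorial) ^ 2) ^ (2 * 2 ^ L) ≤ 2 ^ (2 * 2 ^ L * (2 * 2 ^ L) + 2 * s)) :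
    (m : ℝ) ^ 2 * Real.logb 2 m / 2 ^ 21 ≤ s := by
  obtain ⟨L, h1, h2⟩ := exists_level 364 m (by norm_num) (by omega)
  have h3 := size_ge_log (2 ^ L) s (h L h1)
  have hlog2 : 0 < Real.log 2 := Real.log_pos (by norm_num)
  have hm0 : (2 : ℝ) ^ 27 ≤ m := by exact_mod_cast hm
  have hm1 : (0 : ℝ) < m := lt_of_lt_of_le (by norm_num) hm0
  have h4 : (m : ℝ) < 1456 * (2 ^ L : ℕ) := by
    have : m < 1456 * 2 ^ L := by
      rw [pow_add] at h2
      omega
    exact_mod_cast this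
  set q : ℝ := ((2 ^ L : ℕ) : ℝ) with hq
  have hq1 : (m : ℝ) / 1456 ≤ q := by
    rw [div_le_iff₀ (by norm_num)]
    linarith
  have hq0 : 0 < q := lt_of_lt_of_le (by positivity) hq1
  have h5 : Real.log m - Real.log 1456 ≤ Real.log q := by
    rw [← Real.log_div hm1.ne' (by norm_num)]
    exact Real.log_le_log (by positivity) hq1
  -- `1456 < 2 ^ 10.508`
  have h6 : Real.log 1456 ≤ 10.6 * Real.log 2 := by
    have h7 : Real.log ((1456 : ℝ) ^ 5) ≤ Real.log ((2 : ℝ) ^ 53) :=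
      Real.log_le_log (by norm_num) (by norm_num)
    rw [Real.log_pow, Real.log_pow] at h7
    push_cast at h7
    linarith
  have h7 : 27 * Real.log 2 ≤ Real.log m := by
    have := Real.log_le_log (by norm_num) hm0
    rw [Real.log_pow] at this
    push_cast at this
    exact this
  have h8 : 1 ≤ 1.45 * Real.log 2 := by
    have := Real.log_two_gt_d9
    linarith
  -- `log q - 1 - log 2 ≥ (1 - 13.05 / 27) log m`
  have h9 : (1 - 13.05 / 27) * Real.log m ≤ Real.log q - 1 - Real.log 2 := by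
    linarith
  have hlm : 0 ≤ Real.log m := by linarith
  have h10 : 2 * ((m : ℝ) / 1456) ^ 2 * ((1 - 13.05 / 27) * Real.log m) ≤ Real.log 2 * s := by
    refine le_trans ?_ h3
    have h11 : ((m : ℝ) / 1456) ^ 2 ≤ q ^ 2 := pow_le_pow_left₀ (by positivity) hq1 2
    have h12 : (0 : ℝ) ≤ (1 - 13.05 / 27) * Real.log m := by
      refine mul_nonneg (by norm_num) hlm
    have h13 : 2 * ((m : ℝ) / 1456) ^ 2 * ((1 - 13.05 / 27) * Real.log m) ≤
        2 * q ^ 2 * ((1 - 13.05 / 27) * Real.log m) :=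
      mul_le_mul_of_nonneg_right (by linarith) h12
    refine h13.trans ?_
    exact mul_le_mul_of_nonneg_left h9 (by positivity)
  have h14 : Real.logb 2 m = Real.log m / Real.log 2 := rfl
  rw [h14]
  have h15 : (m : ℝ) ^ 2 * Real.log m / 2 ^ 21 ≤ Real.log 2 * s := by
    refine le_trans ?_ h10
    have h16 : (0 : ℝ) ≤ (m : ℝ) ^ 2 * Real.log m := by positivity
    have h17 : 2 * ((m : ℝ) / 1456) ^ 2 * ((1 - 13.05 / 27) * Real.log m) =
        (m : ℝ) ^ 2 * Real.log m * (2 * (1 - 13.05 / 27) / 1456 ^ 2) := by ring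
    rw [h17, div_eq_mul_inv]
    refine mul_le_mul_of_nonneg_left ?_ h16
    norm_num
  have h18 : (m : ℝ) ^ 2 * (Real.log m / Real.log 2) / 2 ^ 21 =
      (m : ℝ) ^ 2 * Real.log m / 2 ^ 21 / Real.log 2 := by
    field_simp
  rw [h18, div_le_iff₀ hlog2]
  linarith

end Pool.Agent.L5helper88.CP
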