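import Pool.Agent.L5helper88.CP.Crit
import Pool.Agent.L5helper67.DC.Limits

/-!
# The size of programs which approximate a polynomial with many critical points
-/

set_option autoImplicit false

open Finset MvPolynomial Filter

namespace Pool.Agent.L5helper88.CP

open Pool.Agent.L5helper60.LA

section limits

variable {ι : Type}

/-- coefficientwise convergence -/
def CT (F : ℕ → MvPolynomial ι ℂ) (f : MvPolynomial ι ℂ) : Prop :=
  ∀ d, Tendsto (fun k => coeff d (F k)) atTop (nhds (coeff d f))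

theorem CT.const (f : MvPolynomial ι ℂ) : CT (fun _ => f) f := fun _ => tendsto_const_nhds

theorem CT.mul {F G : ℕ → MvPolynomial ι ℂ} {f g : MvPolynomial ι ℂ} (hF : CT F f)
    (hG : CT G g) : CT (fun k => F k * G k) (f * g) := by
  classical
  intro d
  simp only [coeff_mul]
  exact tendsto_finsetSum _ fun x _ => (hF x.1).mul (hG x.2)

theorem CT.add {F G : ℕ → MvPolynomial ι ℂ} {f g : MvPolynomial ι ℂ} (hF : CT F f)
    (hG : CT G g) : CT (fun k => F k + G k) (f + g) := by
  intro d
  simp only [coeff_add]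
  exact (hF d).add (hG d)

theorem CT.pow {F : ℕ → MvPolynomial ι ℂ} {f : MvPolynomial ι ℂ} (hF : CT F f) (n : ℕ) :
    CT (fun k => F k ^ n) (f ^ n) := by
  induction n with
  | zero => simpa using CT.const 1
  | succ n ih =>
    simp only [pow_succ]
    exact ih.mul hF

theorem CT.prod {τ : Type} (s : Finset τ) {F : τ → ℕ → MvPolynomial ι ℂ}
    {f : τ → MvPolynomial ι ℂ} (hF : ∀ i ∈ s, CT (F i) (f i)) :
    CT (fun k => ∏ i ∈ s, F i k) (∏ i ∈ s, f i) := by
  classical
  induction s using Finset.induction_on with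
  | empty => simpa using CT.const 1
  | insert a s ha ih =>
    simp only [prod_insert ha]
    exact (hF a (mem_insert_self _ _)).mul (ih fun i hi => hF i (mem_insert_of_mem hi))

theorem CT.sum {τ : Type} (s : Finset τ) {F : τ → ℕ → MvPolynomial ι ℂ}
    {f : τ → MvPolynomial ι ℂ} (hF : ∀ i ∈ s, CT (F i) (f i)) :
    CT (fun k => ∑ i ∈ s, F i k) (∑ i ∈ s, f i) := by
  intro d
  simp only [coeff_sum]
  exact tendsto_finsetSum _ fun i hi => hF i hi d

theorem CT.C {a : ℕ → ℂ} {a0 : ℂ} (h : Tendsto a atTop (nhds a0)) :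
    CT (fun k => (C (a k) : MvPolynomial ι ℂ)) (C a0) := by
  intro d
  classical
  simp only [coeff_C]
  split_ifs
  · exact h
  · exact tendsto_const_nhds

/-- limits of substitutions -/
theorem CT.aeval {τ : Type} [Fintype τ] [DecidableEq τ] (θk : ℕ → τ → MvPolynomial ι ℂ)
    (θ : τ → MvPolynomial ι ℂ) (hθ : ∀ i, CT (fun k => θk k i) (θ i)) (D : ℕ)
    (F : MvPolynomial τ ℂ) (Fk : ℕ → MvPolynomial τ ℂ) (hdeg : ∀ k, (Fk k).totalDegree ≤ D)
    (hlim : CT Fk F) : CT (fun k => aeval (θk k) (Fk k)) (aeval θ F) := by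
  have h0 : ∀ k e, D < e.degree → coeff e (Fk k) = 0 := by
    intro k e he
    apply coeff_eq_zero_of_totalDegree_lt
    exact lt_of_le_of_lt (hdeg k) he
  have h1 : ∀ e, D < e.degree → coeff e F = 0 := by
    intro e he
    have h2 := hlim e
    have h3 : (fun k => coeff e (Fk k)) = fun _ => (0 : ℂ) := by
      funext k
      exact h0 k e he
    rw [h3] at h2
    exact tendsto_nhds_unique h2 tendsto_const_nhds
  rw [L5helper67.DC.aeval_eq_box θ D F h1]
  have h4 : (fun k => MvPolynomial.aeval (θk k) (Fk k)) = fun k =>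
      ∑ e ∈ Finset.Icc (0 : τ →₀ ℕ) (Finsupp.equivFunOnFinite.symm fun _ : τ => D),
        MvPolynomial.C (coeff e (Fk k)) * ∏ i, θk k i ^ e i := by
    funext k
    exact L5helper67.DC.aeval_eq_box (θk k) D (Fk k) (h0 k)
  rw [h4]
  refine CT.sum _ fun e _ => ?_
  exact (CT.C (hlim e)).mul (CT.prod _ fun i _ => (hθ i).pow _)

end limits

section size

variable {τ σ : Type} [Fintype τ] [DecidableEq τ] [Fintype σ] [DecidableEq σ]

/-- near every parameter there are good parameters -/
theorem exists_near (Δ : MvPolynomial τ ℂ) (hΔ : Δ ≠ 0) (a : τ → ℂ) (ε : ℝ) (hε : 0 < ε) :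
    ∃ a' : τ → ℂ, (∀ j, ‖a' j - a j‖ ≤ ε) ∧ eval a' Δ ≠ 0 := by
  obtain ⟨y, hy⟩ : ∃ y, eval y Δ ≠ 0 := by
    by_contra h
    push Not at h
    exact hΔ (MvPolynomial.funext fun y => by rw [h y, map_zero])
  -- the restriction to the line
  set P : Polynomial ℂ := aeval (fun j => Polynomial.C (a j) +
    Polynomial.C (y j - a j) * Polynomial.X) Δ with hP
  have hev : ∀ t : ℂ, P.eval t = eval (fun j => a j + (y j - a j) * t) Δ := by
    intro t
    rw [hP]
    have h1 : ∀ Q : MvPolynomial τ ℂ, Polynomial.eval t (aeval (fun j => Polynomial.C (a j) +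
        Polynomial.C (y j - a j) * Polynomial.X) Q) = eval (fun j => a j + (y j - a j) * t) Q := by
      intro Q
      induction Q using MvPolynomial.induction_on with
      | C c => simp
      | add f g hf hg => rw [map_add, Polynomial.eval_add, hf, hg, map_add]
      | mul_X f i hf =>
        rw [map_mul, Polynomial.eval_mul, hf, map_mul]
        simp
    exact h1 Δ
  have hP0 : P ≠ 0 := by
    intro h
    apply hy
    have h1 := hev 1
    rw [h, Polynomial.eval_zero] at h1
    have h2 : (fun j => a j + (y j - a j) * 1) = y := by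
      funext j
      ring
    rw [h2] at h1
    exact h1.symm
  set N : ℝ := ∑ j, ‖y j - a j‖ with hN
  have hN0 : 0 ≤ N := sum_nonneg fun _ _ => norm_nonneg _
  set δ : ℝ := ε / (N + 1) with hδ
  have hδ0 : 0 < δ := by positivity
  have hinf : Set.Infinite (Metric.closedBall (0 : ℂ) δ) := by
    refine Set.infinite_of_injective_forall_mem
      (f := fun n : ℕ => ((δ / (n + 1) : ℝ) : ℂ)) ?_ ?_
    · intro m n h
      have h0 : ((δ / ((m : ℝ) + 1) : ℝ) : ℂ) = ((δ / ((n : ℝ) + 1) : ℝ) : ℂ) := h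
      have h1 : δ / ((m : ℝ) + 1) = δ / ((n : ℝ) + 1) := Complex.ofReal_injective h0
      have h2 : ((m : ℝ) + 1) = (n : ℝ) + 1 := by
        have hm : (0 : ℝ) < (m : ℝ) + 1 := by positivity
        have hn : (0 : ℝ) < (n : ℝ) + 1 := by positivity
        rw [div_eq_div_iff hm.ne' hn.ne'] at h1
        exact (mul_left_cancel₀ hδ0.ne' h1).symm
      exact_mod_cast add_right_cancel h2
    · intro n
      rw [mem_closedBall_zero_iff, Complex.norm_real, Real.norm_eq_abs, abs_of_pos (by positivity)]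
      exact div_le_self hδ0.le (by
        have : (0 : ℝ) ≤ n := Nat.cast_nonneg n
        linarith)
  obtain ⟨t, ht1, ht2⟩ := (hinf.sdiff P.roots.toFinset.finite_toSet).nonempty
  refine ⟨fun j => a j + (y j - a j) * t, fun j => ?_, ?_⟩
  · rw [add_sub_cancel_left, norm_mul]
    have h1 : ‖y j - a j‖ ≤ N := single_le_sum (f := fun j => ‖y j - a j‖)
      (fun _ _ => norm_nonneg _) (mem_univ j)
    have h2 : ‖t‖ ≤ δ := by simpa using ht1
    calc ‖y j - a j‖ * ‖t‖ ≤ N * δ := mul_le_mul h1 h2 (norm_nonneg _) hN0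
      _ = ε * (N / (N + 1)) := by rw [hδ]; ring
      _ ≤ ε * 1 := by
        refine mul_le_mul_of_nonneg_left ?_ hε.le
        rw [div_le_one (by positivity)]
        linarith
      _ = ε := mul_one _
  · intro h
    apply ht2
    rw [mem_coe, Multiset.mem_toFinset, Polynomial.mem_roots hP0, Polynomial.IsRoot.def, hev t, h]

/-- **The size of programs which approximate a polynomial with many critical points**, divisions
allowed. -/
theorem size_bound (P : MvPolynomial τ ℂ) (Pk : ℕ → MvPolynomial τ ℂ) (D : ℕ)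
    (hdeg : ∀ k, (Pk k).totalDegree ≤ D) (hlim : CT Pk P) (L : ℕ)
    (hL : ∀ k, ∃ l : List (RF ℂ τ), Prog (xv ℂ) l ∧ l.length ≤ L ∧
      algebraMap (MvPolynomial τ ℂ) (RF ℂ τ) (Pk k) ∈ Av (xv ℂ) {b | b ∈ l})
    (a : τ → ℂ) (b : τ → σ → ℂ) (c : σ → ℂ) (S : Finset (σ → ℂ))
    (hS : Crit (aeval (fun j => aff (a j) (b j)) P) c S) :
    S.card ≤ 2 ^ (Fintype.card σ + 2 * L) := by
  choose l hl1 hl2 hl3 using hL
  choose Δ hΔ H using fun k => critical_bound_subst (σ := σ) (hl1 k) (Pk k) (hl3 k)
  choose a' ha'1 ha'2 using fun k : ℕ => exists_near (Δ k) (hΔ k) a (1 / ((k : ℝ) + 1))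
    (by positivity)
  have haff : ∀ k, aeval (fun j => aff (a' k j) (b j)) (Δ k) ≠ 0 := by
    intro k h
    apply ha'2 k
    have h1 := congrArg (eval (0 : σ → ℂ)) h
    rw [map_zero] at h1
    have h2 : ∀ Q : MvPolynomial τ ℂ, eval (0 : σ → ℂ) (aeval (fun j => aff (a' k j) (b j)) Q) =
        eval (a' k) Q := by
      intro Q
      induction Q using MvPolynomial.induction_on with
      | C c => simp
      | add f g hf hg => rw [map_add, map_add, hf, hg, map_add]
      | mul_X f i hf =>
        rw [map_mul, map_mul, hf, map_mul]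
        simp [aff]
    rw [h2] at h1
    exact h1
  have hconv : ∀ j, Tendsto (fun k => a' k j) atTop (nhds (a j)) := by
    intro j
    rw [tendsto_iff_norm_sub_tendsto_zero]
    refine squeeze_zero (fun _ => norm_nonneg _) (fun k => ha'1 k j) ?_
    exact tendsto_one_div_add_atTop_nhds_zero_nat
  obtain ⟨k, S', hS'1, hS'2⟩ := crit_persist (aeval (fun j => aff (a j) (b j)) P)
    (fun k => aeval (fun j => aff (a' k j) (b j)) (Pk k)) D
    (fun k => (L5helper67.DC.totalDegree_aeval_le _ (fun j => totalDegree_aff _ _) _).trans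
      (hdeg k))
    (CT.aeval _ _ (fun j => (CT.C (hconv j)).add (CT.const _)) D P Pk hdeg hlim) c S hS
  rw [← hS'1]
  refine (H k (a' k) b (haff k) c S' hS'2.1 hS'2.2).trans ?_
  exact Nat.pow_le_pow_right (by norm_num) (by have := hl2 k; omega)

end size

end Pool.Agent.L5helper88.CP
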