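import Pool.Agent.L5helper88.CP.Grad

/-!
# Substitution of affine forms in a chain of rational functions
-/

set_option autoImplicit false

open Finset MvPolynomial

namespace Pool.Agent.L5helper88.CP

open Pool.Agent.L5helper60.LA

section val

variable {τ σ : Type}

/-- `w` is the value of the rational function `z` at the substitution `φ` -/
def Val (φ : τ → MvPolynomial σ ℂ) (z : RF ℂ τ) (w : RF ℂ σ) : Prop :=
  ∃ n d : MvPolynomial τ ℂ, aeval φ d ≠ 0 ∧
    z * algebraMap (MvPolynomial τ ℂ) (RF ℂ τ) d = algebraMap (MvPolynomial τ ℂ) (RF ℂ τ) n ∧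
    w * algebraMap (MvPolynomial σ ℂ) (RF ℂ σ) (aeval φ d) =
      algebraMap (MvPolynomial σ ℂ) (RF ℂ σ) (aeval φ n)

variable {φ : τ → MvPolynomial σ ℂ}

theorem algebraMap_ne {ι : Type} {p : MvPolynomial ι ℂ} (h : p ≠ 0) :
    algebraMap (MvPolynomial ι ℂ) (RF ℂ ι) p ≠ 0 := by
  intro h0
  apply h
  apply IsFractionRing.injective (MvPolynomial ι ℂ) (RF ℂ ι)
  rw [h0, map_zero]

/-- two representations of the same element have proportional values -/
theorem val_cross {z : RF ℂ τ} {n d n' d' : MvPolynomial τ ℂ}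
    (h1 : z * algebraMap (MvPolynomial τ ℂ) (RF ℂ τ) d = algebraMap (MvPolynomial τ ℂ) (RF ℂ τ) n)
    (h2 : z * algebraMap (MvPolynomial τ ℂ) (RF ℂ τ) d' =
      algebraMap (MvPolynomial τ ℂ) (RF ℂ τ) n') : n * d' = n' * d := by
  apply IsFractionRing.injective (MvPolynomial τ ℂ) (RF ℂ τ)
  rw [map_mul, map_mul, ← h1, ← h2]
  ring

theorem Val.unique {z : RF ℂ τ} {w w' : RF ℂ σ} (h : Val φ z w) (h' : Val φ z w') : w = w' := by
  obtain ⟨n, d, hd, h1, h2⟩ := h
  obtain ⟨n', d', hd', h1', h2'⟩ := h'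
  have h3 := congrArg (aeval φ) (val_cross h1 h1')
  rw [map_mul, map_mul] at h3
  have h4 := congrArg (algebraMap (MvPolynomial σ ℂ) (RF ℂ σ)) h3
  rw [map_mul, map_mul, ← h2, ← h2'] at h4
  have e1 := algebraMap_ne hd
  have e2 := algebraMap_ne hd'
  have h5 : (w - w') * (algebraMap (MvPolynomial σ ℂ) (RF ℂ σ) (aeval φ d) *
      algebraMap (MvPolynomial σ ℂ) (RF ℂ σ) (aeval φ d')) = 0 := by
    linear_combination h4
  exact sub_eq_zero.1 ((mul_eq_zero.1 h5).resolve_right (mul_ne_zero e1 e2))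

theorem Val.add {z z' : RF ℂ τ} {w w' : RF ℂ σ} (h : Val φ z w) (h' : Val φ z' w') :
    Val φ (z + z') (w + w') := by
  obtain ⟨n, d, hd, h1, h2⟩ := h
  obtain ⟨n', d', hd', h1', h2'⟩ := h'
  refine ⟨n * d' + n' * d, d * d', by rw [map_mul]; exact mul_ne_zero hd hd', ?_, ?_⟩
  · rw [map_mul, map_add, map_mul, map_mul, ← h1, ← h1']
    ring
  · rw [map_mul, map_mul, map_add, map_add, map_mul, map_mul, map_mul, map_mul, ← h2, ← h2']
    ring

theorem Val.mul {z z' : RF ℂ τ} {w w' : RF ℂ σ} (h : Val φ z w) (h' : Val φ z' w') :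
    Val φ (z * z') (w * w') := by
  obtain ⟨n, d, hd, h1, h2⟩ := h
  obtain ⟨n', d', hd', h1', h2'⟩ := h'
  refine ⟨n * n', d * d', by rw [map_mul]; exact mul_ne_zero hd hd', ?_, ?_⟩
  · rw [map_mul, map_mul, ← h1, ← h1']
    ring
  · rw [map_mul, map_mul, map_mul, map_mul, ← h2, ← h2']
    ring

theorem Val.poly (p : MvPolynomial τ ℂ) : Val φ (algebraMap (MvPolynomial τ ℂ) (RF ℂ τ) p)
    (algebraMap (MvPolynomial σ ℂ) (RF ℂ σ) (aeval φ p)) :=
  ⟨p, 1, by simp, by simp, by simp⟩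

theorem Val.const (c : ℂ) : Val φ (algebraMap ℂ (RF ℂ τ) c) (algebraMap ℂ (RF ℂ σ) c) := by
  have h := Val.poly (φ := φ) (C c)
  rw [aeval_C] at h
  exact h

theorem Val.var (j : τ) : Val φ (xv ℂ j) (algebraMap (MvPolynomial σ ℂ) (RF ℂ σ) (φ j)) := by
  have h := Val.poly (φ := φ) (X j)
  rw [aeval_X] at h
  exact h

theorem Val.smul (c : ℂ) {z : RF ℂ τ} {w : RF ℂ σ} (h : Val φ z w) : Val φ (c • z) (c • w) := by
  rw [Algebra.smul_def, Algebra.smul_def]
  exact (Val.const c).mul h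

theorem Val.zero : Val φ 0 0 := by
  have h := Val.const (φ := φ) 0
  rwa [map_zero, map_zero] at h

/-- the inputs after the substitution -/
noncomputable def xs (φ : τ → MvPolynomial σ ℂ) (j : τ) : RF ℂ σ :=
  algebraMap (MvPolynomial σ ℂ) (RF ℂ σ) (φ j)

theorem av_val {l : List (RF ℂ τ)} {l' : List (RF ℂ σ)} (h : List.Forall₂ (Val φ) l l')
    {u : RF ℂ τ} (hu : u ∈ Av (xv ℂ) {b | b ∈ l}) :
    ∃ w, w ∈ Av (xs φ) {b | b ∈ l'} ∧ Val φ u w := by
  unfold Av at hu
  induction hu using Submodule.span_induction with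
  | mem u hu =>
    rcases hu with hu | ⟨i, rfl⟩ | hu
    · have hu' : u ∈ l := hu
      clear hu
      induction h with
      | nil => exact absurd hu' (by simp)
      | cons hab _ ih =>
        rcases List.mem_cons.1 hu' with rfl | hu'
        · exact ⟨_, av_mem List.mem_cons_self, hab⟩
        · obtain ⟨w, hw1, hw2⟩ := ih hu'
          exact ⟨w, Av_mono sub_cons hw1, hw2⟩
    · exact ⟨_, av_var i, Val.var i⟩
    · rw [Set.mem_singleton_iff] at hu
      subst hu
      refine ⟨1, av_one, ?_⟩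
      have h1 := Val.const (φ := φ) 1
      rwa [map_one, map_one] at h1
  | zero => exact ⟨0, Submodule.zero_mem _, Val.zero⟩
  | add x y _ _ hx hy =>
    obtain ⟨w, hw1, hw2⟩ := hx
    obtain ⟨w', hw1', hw2'⟩ := hy
    exact ⟨w + w', Submodule.add_mem _ hw1 hw1', hw2.add hw2'⟩
  | smul c x _ hx =>
    obtain ⟨w, hw1, hw2⟩ := hx
    exact ⟨c • w, Submodule.smul_mem _ c hw1, hw2.smul c⟩

theorem q_val {l : List (RF ℂ τ)} {l' : List (RF ℂ σ)} (h : List.Forall₂ (Val φ) l l')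
    {z : RF ℂ τ} (hz : z ∈ Q (xv ℂ) {b | b ∈ l}) :
    ∃ w ∈ Q (xs φ) {b | b ∈ l'}, Val φ z w := by
  unfold Q at hz
  induction hz using Submodule.span_induction with
  | mem x hx =>
    obtain ⟨u, v, hu, hv, rfl⟩ := hx
    obtain ⟨u', hu1, hu2⟩ := av_val h hu
    obtain ⟨v', hv1, hv2⟩ := av_val h hv
    exact ⟨u' * v', Q_mul hu1 hv1, hu2.mul hv2⟩
  | zero => exact ⟨0, Submodule.zero_mem _, Val.zero⟩
  | add x y _ _ hx hy =>
    obtain ⟨w, hw1, hw2⟩ := hx
    obtain ⟨w', hw1', hw2'⟩ := hy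
    exact ⟨w + w', Submodule.add_mem _ hw1 hw1', hw2.add hw2'⟩
  | smul c x _ hx =>
    obtain ⟨w, hw1, hw2⟩ := hx
    exact ⟨c • w, Submodule.smul_mem _ c hw1, hw2.smul c⟩

theorem exists_frac (z : RF ℂ τ) : ∃ n d : MvPolynomial τ ℂ, d ≠ 0 ∧
    z * algebraMap (MvPolynomial τ ℂ) (RF ℂ τ) d = algebraMap (MvPolynomial τ ℂ) (RF ℂ τ) n := by
  obtain ⟨⟨n, d⟩, h⟩ := IsLocalization.surj (nonZeroDivisors (MvPolynomial τ ℂ)) z
  exact ⟨n, d, nonZeroDivisors.ne_zero d.2, h⟩

/-- **Substitution** in a chain. -/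
theorem transfer {M : List (RF ℂ τ)} (hM : Chain (xv ℂ) M) : ∃ Δ : MvPolynomial τ ℂ, Δ ≠ 0 ∧
    ∀ (φ : τ → MvPolynomial σ ℂ), aeval φ Δ ≠ 0 → ∃ M' : List (RF ℂ σ),
      Chain (xs φ) M' ∧ List.Forall₂ (Val φ) M M' := by
  induction hM with
  | nil => exact ⟨1, one_ne_zero, fun φ _ => ⟨[], Chain.nil, List.Forall₂.nil⟩⟩
  | cons a v l _ hv hv0 ha ih =>
    obtain ⟨Δ, hΔ, H⟩ := ih
    obtain ⟨na, da, hda, ha1⟩ := exists_frac a
    obtain ⟨nv, dv, hdv, hv1⟩ := exists_frac v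
    have hnv : nv ≠ 0 := by
      rintro rfl
      rw [map_zero] at hv1
      exact (mul_ne_zero hv0 (algebraMap_ne hdv)) hv1
    refine ⟨Δ * da * nv, mul_ne_zero (mul_ne_zero hΔ hda) hnv, fun φ hφ => ?_⟩
    rw [map_mul, map_mul] at hφ
    have h1 : aeval φ Δ ≠ 0 := left_ne_zero_of_mul (left_ne_zero_of_mul hφ)
    have h2 : aeval φ da ≠ 0 := right_ne_zero_of_mul (left_ne_zero_of_mul hφ)
    have h3 : aeval φ nv ≠ 0 := right_ne_zero_of_mul hφ
    obtain ⟨l', hl', hll⟩ := H φ h1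
    obtain ⟨v', hv'1, hv'2⟩ := av_val hll hv
    have hv'0 : v' ≠ 0 := by
      rintro rfl
      obtain ⟨n0, d0, hd0, e1, e2⟩ := hv'2
      have e3 := congrArg (aeval φ) (val_cross e1 hv1)
      rw [map_mul, map_mul] at e3
      rw [zero_mul] at e2
      have e4 : aeval φ n0 = 0 := by
        by_contra h
        exact algebraMap_ne h e2.symm
      rw [e4, zero_mul] at e3
      exact mul_ne_zero h3 hd0 e3.symm
    set a' : RF ℂ σ := algebraMap (MvPolynomial σ ℂ) (RF ℂ σ) (aeval φ na) /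
      algebraMap (MvPolynomial σ ℂ) (RF ℂ σ) (aeval φ da) with ha'
    have haa : Val φ a a' := ⟨na, da, h2, ha1, by
      rw [ha', div_mul_cancel₀ _ (algebraMap_ne h2)]⟩
    obtain ⟨w, hw1, hw2⟩ := q_val hll ha
    have hw3 : w = v' * a' := hw2.unique (hv'2.mul haa)
    exact ⟨a' :: l', Chain.cons a' v' l' hl' hv'1 hv'0 (hw3 ▸ hw1), List.Forall₂.cons haa hll⟩

end val

section subst

variable {τ σ : Type} [Fintype τ] [DecidableEq τ]

/-- the chain rule -/
theorem pderiv_aeval (φ : τ → MvPolynomial σ ℂ) (i : σ) (P : MvPolynomial τ ℂ) :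
    pderiv i (aeval φ P) = ∑ j, aeval φ (pderiv j P) * pderiv i (φ j) := by
  classical
  induction P using MvPolynomial.induction_on with
  | C a =>
    rw [aeval_C]
    change pderiv i (C a) = _
    simp
  | add f g hf hg => simp only [map_add, hf, hg, add_mul, sum_add_distrib]
  | mul_X f k hf =>
    rw [map_mul, aeval_X, Derivation.leibniz, hf, smul_eq_mul, smul_eq_mul]
    have h1 : ∀ j, aeval φ (pderiv j (f * X k)) * pderiv i (φ j) =
        φ k * (aeval φ (pderiv j f) * pderiv i (φ j)) +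
          (if j = k then aeval φ f * pderiv i (φ j) else 0) := by
      intro j
      rw [Derivation.leibniz, pderiv_X, smul_eq_mul, smul_eq_mul, map_add, map_mul, map_mul,
        aeval_X]
      by_cases h : j = k
      · subst h
        simp
        ring
      · rw [Pi.single_eq_of_ne (Ne.symm h), if_neg h, map_zero]
        ring
    simp only [h1, sum_add_distrib, ← mul_sum, sum_ite_eq', mem_univ, if_true]
    ring

variable [Fintype σ] [DecidableEq σ]

/-- an affine form -/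
noncomputable def aff (a : ℂ) (b : σ → ℂ) : MvPolynomial σ ℂ := C a + ∑ i, C (b i) * X i

theorem pderiv_aff (a : ℂ) (b : σ → ℂ) (i : σ) : pderiv i (aff a b) = C (b i) := by
  unfold aff
  rw [map_add, pderiv_C, zero_add, map_sum]
  have h1 : ∀ j, pderiv i (C (b j) * X j) = if j = i then C (b j) else 0 := by
    intro j
    rw [pderiv_C_mul, pderiv_X]
    by_cases h : j = i
    · subst h
      simp
    · rw [Pi.single_eq_of_ne h, if_neg h]
      simp
  simp only [h1, sum_ite_eq', mem_univ, if_true]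

theorem totalDegree_aff (a : ℂ) (b : σ → ℂ) : (aff a b).totalDegree ≤ 1 := by
  unfold aff
  refine (totalDegree_add _ _).trans (max_le (by simp) ?_)
  refine totalDegree_finsetSum_le fun i _ => ?_
  refine (totalDegree_mul _ _).trans ?_
  rw [totalDegree_C, totalDegree_X]

/-- A polynomial `P` with a program of length `L` (divisions are allowed): for all affine
substitutions outside a proper algebraic set, the polynomial `P ∘ φ` has at most `2 ^ (k + 2 L)`
nondegenerate critical points relative to each linear form. -/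
theorem critical_bound_subst {l : List (RF ℂ τ)} (hl : Prog (xv ℂ) l) (P : MvPolynomial τ ℂ)
    (hP : algebraMap (MvPolynomial τ ℂ) (RF ℂ τ) P ∈ Av (xv ℂ) {b | b ∈ l}) :
    ∃ Δ : MvPolynomial τ ℂ, Δ ≠ 0 ∧ ∀ (a : τ → ℂ) (b : τ → σ → ℂ),
      aeval (fun j => aff (a j) (b j)) Δ ≠ 0 →
      ∀ (c : σ → ℂ) (S : Finset (σ → ℂ)),
        (∀ p ∈ S, ∀ i, eval p (pderiv i (aeval (fun j => aff (a j) (b j)) P)) = c i) →
        (∀ p ∈ S, ∀ z : σ → ℂ, (∀ j, ∑ i, z i *
          eval p (pderiv i (pderiv j (aeval (fun j => aff (a j) (b j)) P))) = 0) → z = 0) →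
        S.card ≤ 2 ^ (Fintype.card σ + 2 * l.length) := by
  obtain ⟨M, hM1, hM2, hM3⟩ := gradient isDer_dv hl hP
  obtain ⟨Δ, hΔ, H⟩ := transfer (σ := σ) hM1
  refine ⟨Δ, hΔ, fun a b hab c S hS hnd => ?_⟩
  set φ : τ → MvPolynomial σ ℂ := fun j => aff (a j) (b j) with hφ
  obtain ⟨M', hM', hMM⟩ := H φ hab
  have hlen : M'.length = M.length := hMM.length_eq.symm
  refine (degree_bound (x := (xv ℂ : σ → RF ℂ σ)) ?_ (x' := xs φ) φ
    (fun j => totalDegree_aff _ _) (fun j => aeval_xv _) hM'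
    (fun i => pderiv i (aeval φ P) - C (c i)) ?_ S ?_ ?_).trans
    (Nat.pow_le_pow_right (by norm_num) (by omega))
  · intro a b h
    rw [aeval_xv, aeval_xv] at h
    exact IsFractionRing.injective (MvPolynomial σ ℂ) (RF ℂ σ) h
  · intro i
    rw [map_sub, aeval_C, pderiv_aeval, map_sum]
    have h1 : algebraMap ℂ (RF ℂ σ) (c i) ∈ Q (xs φ) {b | b ∈ M'} :=
      Q_av (av_const _)
    refine Submodule.sub_mem _ (Submodule.sum_mem _ fun j _ => ?_) h1
    rw [map_mul, hφ, pderiv_aff, aeval_C, mul_comm]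
    apply Q_const
    rw [aeval_xv]
    obtain ⟨w, hw1, hw2⟩ := q_val hMM (hM3 j)
    rw [dv_algebraMap] at hw2
    have h2 := hw2.unique (Val.poly _)
    rw [← h2]
    exact hw1
  · intro p hp i
    rw [map_sub, hS p hp, eval_C, sub_self]
  · intro p hp z hz
    apply hnd p hp
    intro j
    rw [← hz j]
    refine sum_congr rfl fun i _ => ?_
    rw [map_sub, pderiv_C, sub_zero]

end subst

end Pool.Agent.L5helper88.CP
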